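import Mathlib

/-! Functions whose weighted differences descend along a filtration. -/

namespace Pool.Agent.MP_5f72fe_nt.H41

/-- the two directions -/
def dir (d : Bool) : ℤ × ℤ := if d then (1, 0) else (0, 1)

/-- their weights -/
def cost (d : Bool) : ℕ := if d then 1 else 2

section Gen

variable {B : Type} [AddCommGroup B]

/-- the differences of weighted order `s` of `f` take values in `J (k + s)` -/
def SW (J : ℕ → AddSubgroup B) : ℕ → ℕ → (ℤ × ℤ → B) → Prop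
  | 0, k, f => ∀ w, f w ∈ J k
  | r + 1, k, f => (∀ w, f w ∈ J k) ∧ ∀ d, SW J r (k + cost d) fun w => f (w + dir d) - f w

variable {J : ℕ → AddSubgroup B}

theorem SW.pt {r k : ℕ} {f : ℤ × ℤ → B} (hf : SW J r k f) : ∀ w, f w ∈ J k := by
  cases r with
  | zero => exact hf
  | succ r => exact hf.1

theorem SW.down : ∀ {r k : ℕ} {f : ℤ × ℤ → B}, SW J (r + 1) k f → SW J r k f
  | 0, _, _, hf => hf.1
  | _ + 1, _, _, hf => ⟨hf.1, fun h => SW.down (hf.2 h)⟩

theorem SW.congr {r k : ℕ} {f g : ℤ × ℤ → B} (hf : SW J r k f) (h : ∀ w, g w = f w) :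
    SW J r k g := by
  have : g = f := funext h
  rw [this]; exact hf

theorem SW.add : ∀ {r k : ℕ} {f g : ℤ × ℤ → B}, SW J r k f → SW J r k g →
    SW J r k fun w => f w + g w
  | 0, _, _, _, hf, hg => fun w => add_mem (hf w) (hg w)
  | _ + 1, _, _, _, hf, hg => ⟨fun w => add_mem (hf.1 w) (hg.1 w), fun h =>
      (SW.add (hf.2 h) (hg.2 h)).congr fun w => by beta_reduce; abel⟩

theorem SW.map {B' : Type} [AddCommGroup B'] {J' : ℕ → AddSubgroup B'} (φ : B →+ B') (c : ℕ)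
    (h : ∀ k x, x ∈ J k → φ x ∈ J' (k + c)) :
    ∀ {r k : ℕ} {f : ℤ × ℤ → B}, SW J r k f → SW J' r (k + c) fun w => φ (f w)
  | 0, _, _, hf => fun w => h _ _ (hf w)
  | _ + 1, k, _, hf => ⟨fun w => h _ _ (hf.1 w), fun d => by
      have := SW.map φ c h (hf.2 d)
      rw [add_right_comm] at this
      exact this.congr fun w => by rw [map_sub]⟩

theorem SW.neg {r k : ℕ} {f : ℤ × ℤ → B} (hf : SW J r k f) : SW J r k fun w => -f w :=
  SW.map (-AddMonoidHom.id B) 0 (fun _ _ hx => neg_mem hx) hf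

theorem SW.sub {r k : ℕ} {f g : ℤ × ℤ → B} (hf : SW J r k f) (hg : SW J r k g) :
    SW J r k fun w => f w - g w :=
  (hf.add hg.neg).congr fun w => by abel

theorem SW.shift : ∀ {r k : ℕ} {f : ℤ × ℤ → B} (x : ℤ × ℤ), SW J r k f →
    SW J r k fun w => f (w + x)
  | 0, _, _, x, hf => fun w => hf (w + x)
  | _ + 1, _, f, x, hf => ⟨fun w => hf.1 (w + x), fun h =>
      (SW.shift x (hf.2 h)).congr fun w => by rw [add_right_comm]⟩

theorem SW.mono (hJ : ∀ k l, k ≤ l → J l ≤ J k) :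
    ∀ {r k l : ℕ} {f : ℤ × ℤ → B}, k ≤ l → SW J r l f → SW J r k f
  | 0, _, _, _, h, hf => fun w => hJ _ _ h (hf w)
  | _ + 1, _, _, _, h, hf => ⟨fun w => hJ _ _ h (hf.1 w), fun d =>
      SW.mono hJ (Nat.add_le_add_right h _) (hf.2 d)⟩

theorem SW.all : ∀ {r k : ℕ} {f : ℤ × ℤ → B}, (∀ w k, f w ∈ J k) → SW J r k f
  | 0, k, _, hf => fun w => hf w k
  | _ + 1, k, _, hf => ⟨fun w => hf w k, fun _ => SW.all fun w k => sub_mem (hf _ k) (hf w k)⟩

theorem SW.const {r k : ℕ} {c : B} (hc : c ∈ J k) : SW J r k fun _ => c := by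
  cases r with
  | zero => exact fun _ => hc
  | succ r => exact ⟨fun _ => hc, fun h => SW.all fun w k => by simp⟩

end Gen

section Mul

variable {A : Type} [CommRing A] {J J₁ J₂ : ℕ → AddSubgroup A}

theorem SW.mul (hm : ∀ k l a b, a ∈ J₁ k → b ∈ J₂ l → a * b ∈ J (k + l)) :
    ∀ {r k l : ℕ} {f g : ℤ × ℤ → A}, SW J₁ r k f → SW J₂ r l g →
      SW J r (k + l) fun w => f w * g w
  | 0, _, _, _, _, hf, hg => fun w => hm _ _ _ _ (hf w) (hg w)
  | r + 1, k, l, f, g, hf, hg => ⟨fun w => hm _ _ _ _ (hf.1 w) (hg.1 w), fun h => by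
      have h1 := SW.mul hm (hf.2 h) (SW.shift (dir h) hg.down)
      have h2 := SW.mul hm hf.down (hg.2 h)
      rw [add_right_comm] at h1
      rw [← add_assoc] at h2
      exact (SW.add h1 h2).congr fun w => by ring⟩

/-- multiplicative differences control additive ones -/
theorem SW.exp {H : Type} [AddCommGroup H]
    (hm : ∀ k l a b, a ∈ J k → b ∈ J l → a * b ∈ J (k + l))
    (hJ : ∀ k l, k ≤ l → J l ≤ J k) (h1 : (1 : A) ∈ J 0) (e : H → A)
    (he : ∀ x y, e (x + y) = e x * e y)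
    (K : ℕ → AddSubgroup H) (hK : ∀ k x, x ∈ K k → e x - 1 ∈ J k) :
    ∀ {r k : ℕ} {φ : ℤ × ℤ → H}, SW K r k φ → SW J r k fun w => e (φ w) - 1
  | 0, k, _, hf => fun w => hK k _ (hf w)
  | r + 1, k, φ, hf => ⟨fun w => hK k _ (hf.1 w), fun h => by
      have a1 := SW.exp hm hJ h1 e he K hK (hf.2 h)
      have a2 : SW J r 0 fun w => e (φ w) - 1 :=
        SW.mono hJ (Nat.zero_le k) (SW.exp hm hJ h1 e he K hK hf.down)
      have a3 : SW J r 0 fun w => e (φ w) := (a2.add (SW.const h1)).congr fun w => by ring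
      have a4 := SW.mul hm a3 a1
      rw [zero_add] at a4
      refine a4.congr fun w => ?_
      have : e (φ (w + dir h)) = e (φ w) * e (φ (w + dir h) - φ w) := by
        rw [← he]; congr 1; abel
      beta_reduce
      rw [this]; ring⟩

end Mul

section Int

/-- everything up to level `d`, nothing above -/
def TT (d k : ℕ) : AddSubgroup ℤ := if k ≤ d then ⊤ else ⊥

theorem mem_TT {d k : ℕ} {x : ℤ} : x ∈ TT d k ↔ k ≤ d ∨ x = 0 := by
  unfold TT; split_ifs with h <;> simp [h]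

theorem TT_mul (d e k l : ℕ) (a b : ℤ) (ha : a ∈ TT d k) (hb : b ∈ TT e l) :
    a * b ∈ TT (d + e) (k + l) := by
  rw [mem_TT] at *
  rcases ha with ha | rfl
  · rcases hb with hb | rfl
    · exact Or.inl (by omega)
    · exact Or.inr (mul_zero _)
  · exact Or.inr (zero_mul _)

/-- affine functions -/
theorem SW_aff {d r k : ℕ} (c₀ c₁ c₂ : ℤ) (h0 : k ≤ d) (h1 : k + 1 ≤ d ∨ c₁ = 0)
    (h2 : k + 2 ≤ d ∨ c₂ = 0) : SW (TT d) r k fun w => c₀ + c₁ * w.1 + c₂ * w.2 := by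
  cases r with
  | zero => exact fun _ => mem_TT.2 (Or.inl h0)
  | succ r =>
    refine ⟨fun _ => mem_TT.2 (Or.inl h0), fun b => ?_⟩
    cases b
    · exact (SW.const (c := c₂) (mem_TT.2 h2)).congr fun w => by simp [dir]; ring
    · exact (SW.const (c := c₁) (mem_TT.2 h1)).congr fun w => by simp [dir]; ring

/-- polynomials of weighted degree at most three -/
theorem SW_cub (r : ℕ) (c₀ c₁ c₂ c₁₁ c₁₂ c₁₁₁ : ℤ) : SW (TT 3) r 0 fun w =>
    c₀ + c₁ * w.1 + c₂ * w.2 + c₁₁ * w.1 ^ 2 + c₁₂ * w.1 * w.2 + c₁₁₁ * w.1 ^ 3 := by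
  have h1 : SW (TT 1) r 0 fun w => 0 + 1 * w.1 + 0 * w.2 := SW_aff _ _ _ (by omega) (by omega) (by omega)
  have h2 : SW (TT 2) r 0 fun w => 0 + c₁₁ * w.1 + c₁₂ * w.2 :=
    SW_aff _ _ _ (by omega) (by omega) (by omega)
  have h3 : SW (TT 1) r 0 fun w => 0 + c₁₁₁ * w.1 + 0 * w.2 :=
    SW_aff _ _ _ (by omega) (by omega) (by omega)
  have h4 : SW (TT 3) r 0 fun w => c₀ + c₁ * w.1 + c₂ * w.2 :=
    SW_aff _ _ _ (by omega) (by omega) (by omega)
  exact (h4.add (SW.mul (TT_mul 1 2) h1 (h2.add (SW.mul (TT_mul 1 1) h1 h3)))).congr fun w => by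
    ring

/-- polynomials of weighted degree at most two -/
theorem SW_quad (r k : ℕ) (c₀ c₁ c₂ c₁₁ : ℤ) : SW (TT (k + 2)) r k fun w =>
    c₀ + c₁ * w.1 + c₂ * w.2 + c₁₁ * w.1 ^ 2 := by
  have h1 : SW (TT (k + 1)) r k fun w => 0 + 1 * w.1 + 0 * w.2 :=
    SW_aff _ _ _ (by omega) (by omega) (by omega)
  have h3 : SW (TT 1) r 0 fun w => 0 + c₁₁ * w.1 + 0 * w.2 :=
    SW_aff _ _ _ (by omega) (by omega) (by omega)
  have h4 : SW (TT (k + 2)) r k fun w => c₀ + c₁ * w.1 + c₂ * w.2 :=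
    SW_aff _ _ _ (by omega) (by omega) (by omega)
  exact (h4.add (SW.mul (TT_mul (k + 1) 1) h1 h3)).congr fun w => by ring

/-- multiples of a power of three -/
def ZM (a e N k : ℕ) : AddSubgroup ℤ := AddSubgroup.zmultiples ((3 : ℤ) ^ min (max a (k - e)) N)

theorem mem_ZM {a e N k : ℕ} {x : ℤ} : x ∈ ZM a e N k ↔ (3 : ℤ) ^ min (max a (k - e)) N ∣ x := by
  unfold ZM; exact Int.mem_zmultiples_iff

theorem SW_pow {a e N b d r : ℕ} {f : ℤ × ℤ → ℤ} (hab : a ≤ b) (hd : d ≤ b + e)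
    (hf : SW (TT d) r 0 f) : SW (ZM a e N) r 0 fun w => 3 ^ b * f w :=
  SW.map (AddMonoidHom.mulLeft ((3 : ℤ) ^ b)) 0 (fun k x hx => by
    rw [mem_ZM, AddMonoidHom.coe_mulLeft]
    rcases mem_TT.1 hx with h | rfl
    · exact (pow_dvd_pow 3 (by omega)).mul_right _
    · simp) hf

/-- division by a unit -/
theorem SW_div (a e N : ℕ) (l : ℤ) : ∀ (r k : ℕ) (u : ℤ) (φ : ℤ × ℤ → ℤ), ¬ 3 ∣ u →
    SW (ZM a e N) r k (fun w => (u + 3 * l * w.1) * φ w) → SW (ZM a e N) r k φ := by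
  have key : ∀ (k : ℕ) (u : ℤ) (φ : ℤ × ℤ → ℤ), ¬ 3 ∣ u →
      (∀ w : ℤ × ℤ, (u + 3 * l * w.1) * φ w ∈ ZM a e N k) → ∀ w, φ w ∈ ZM a e N k := by
    intro k u φ hu h w
    have h1 := h w
    rw [mem_ZM] at *
    refine IsCoprime.dvd_of_dvd_mul_left ?_ h1
    apply IsCoprime.pow_left
    rw [Int.prime_three.irreducible.coprime_iff_not_dvd, mul_assoc]
    omega
  intro r
  induction r with
  | zero => intro k u φ hu h; exact key k u φ hu h
  | succ r ih =>
    intro k u φ hu h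
    refine ⟨key k u φ hu h.1, fun x => ?_⟩
    have h0 : SW (ZM a e N) r k φ := ih k u φ hu h.down
    cases x
    · exact ih _ u _ hu ((h.2 false).congr fun w => by simp [dir]; ring)
    · have h1 : SW (ZM a e N) r (k + 1) fun w => 3 * l * φ w :=
        SW.map (AddMonoidHom.mulLeft (3 * l)) 1 (fun k x hx => by
          rw [mem_ZM] at *
          rw [AddMonoidHom.coe_mulLeft, mul_assoc]
          refine dvd_trans (pow_dvd_pow 3 ?_)
            ((pow_succ' (3 : ℤ) _).symm ▸ mul_dvd_mul_left 3 (hx.mul_left l))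
          omega) h0
      refine ih _ (u + 3 * l) _ (by omega) (((h.2 true).sub h1).congr fun w => ?_)
      simp [dir]; ring

/-- the remainder of one coordinate -/
theorem SW_rem {a e N r : ℕ} {l u : ℤ} {G P n F : ℤ × ℤ → ℤ} (hu : ¬ 3 ∣ u)
    (h : ∀ w, (3 : ℤ) ^ N ∣ (u + 3 * l * w.1) * G w - n w) (hF : SW (ZM a e N) r 0 F)
    (hid : ∀ w, n w - (u + 3 * l * w.1) * P w = F w) :
    SW (ZM a e N) r 0 fun w => G w - P w := by
  refine SW_div a e N l r 0 u _ hu (((SW.all (f := fun w => (u + 3 * l * w.1) * G w - n w)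
    fun w k => ?_).add hF).congr fun w => ?_)
  · rw [mem_ZM]; exact (pow_dvd_pow 3 (min_le_right _ N)).trans (h w)
  · rw [← hid]; ring

theorem six_le (c : ℕ) : 6 * c ≤ 3 ^ c + 3 := by
  induction c with
  | zero => omega
  | succ c ih =>
    rcases Nat.eq_zero_or_pos c with rfl | h
    · norm_num
    · rw [pow_succ]; omega

end Int

end Pool.Agent.MP_5f72fe_nt.H41
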