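import Pool.Agent.MP_5f72fe_nt.H25.SpecD
import Pool.Agent.MP_5f72fe_nt.H45.TAY
import Pool.Agent.MP_5f72fe_nt.H41.WGen

/-! The weighted degree of functions modulo `3`, and expansions along projective maps. -/

namespace Pool.Agent.MP_5f72fe_nt.H41

open Pool.Agent.MP_5f72fe_nt.H3 hiding XX
open Pool.Agent.MP_5f72fe_nt.H25 Pool.Agent.MP_5f72fe_nt.H45

noncomputable section

theorem dw_iff (m : ℕ) (ψ : FF) :
    DW m ψ ↔ ∀ i j : ℕ, m ≤ i + 2 * j → rho (XX ^ i * YY ^ j) ψ = 0 := by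
  unfold DW
  simp only [iter_rho XX df1 df1_eq, iter_rho YY df2 df2_eq, rho_mul]

theorem dw_mono {m n : ℕ} {ψ : FF} (h : DW m ψ) (hmn : m ≤ n) : DW n ψ :=
  fun i j hij => h i j (hmn.trans hij)

theorem dw_zero {ψ : FF} : DW 0 ψ ↔ ψ = 0 := by
  rw [dw_iff]
  refine ⟨fun h => by simpa using h 0 0 le_rfl, fun h i j _ => by rw [h, map_zero]⟩

theorem dw_add {m : ℕ} {ψ χ : FF} (h : DW m ψ) (h' : DW m χ) : DW m (ψ + χ) := by
  rw [dw_iff] at *
  intro i j hij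
  rw [map_add, h i j hij, h' i j hij, add_zero]

theorem dw_rho {m : ℕ} {ψ : FF} (a : AA) (h : DW m ψ) : DW m (rho a ψ) := by
  rw [dw_iff] at *
  intro i j hij
  rw [← rho_mul, mul_comm, rho_mul, h i j hij, map_zero]

/-- the elements lowering the weighted degree by `k`, on functions of degree less than `M` -/
def JW (M k : ℕ) : AddSubgroup AA where
  carrier := {a | ∀ (m : ℕ) (ψ : FF), DW M ψ → DW (m + k) ψ → DW m (rho a ψ)}
  zero_mem' := fun m ψ _ _ => by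
    rw [map_zero]; exact dw_mono (dw_zero.2 rfl) (Nat.zero_le m)
  add_mem' := fun {a b} ha hb m ψ h h' => by
    rw [rho_add]; exact dw_add (ha m ψ h h') (hb m ψ h h')
  neg_mem' := fun {a} ha m ψ h h' => by
    rw [← neg_one_mul, rho_mul]; exact dw_rho _ (ha m ψ h h')

variable {M : ℕ}

theorem JW_zero (a : AA) : a ∈ JW M 0 := fun _ _ _ h => dw_rho a h

theorem JW_mul (k l : ℕ) (a b : AA) (ha : a ∈ JW M k) (hb : b ∈ JW M l) : a * b ∈ JW M (k + l) :=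
  fun m ψ h h' => by
    rw [rho_mul]
    exact ha m _ (dw_rho b h) (hb (m + k) ψ h (by rwa [add_assoc]))

theorem JW_le {k l : ℕ} {a : AA} (hkl : k ≤ l) (ha : a ∈ JW M l) : a ∈ JW M k :=
  fun m ψ h h' => ha m ψ h (dw_mono h' (by omega))

theorem JW_mono (k l : ℕ) (h : k ≤ l) : JW M l ≤ JW M k := fun _ ha => JW_le h ha

theorem JW_top {k : ℕ} {a : AA} (ha : a ∈ JW M M) : a ∈ JW M k := fun m ψ h _ =>
  dw_mono (ha 0 ψ h (by rwa [zero_add])) (Nat.zero_le m)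

theorem JW_left {k : ℕ} (b : AA) {a : AA} (ha : a ∈ JW M k) : b * a ∈ JW M k := by
  simpa using JW_mul 0 k b a (JW_zero b) ha

theorem JW_pow {k : ℕ} {a : AA} (ha : a ∈ JW M k) (n : ℕ) : a ^ n ∈ JW M (n * k) := by
  induction n with
  | zero => simpa using JW_zero 1
  | succ n ih => rw [pow_succ, add_mul, one_mul]; exact JW_mul _ _ _ _ ih ha

theorem JW_kill {k : ℕ} {a : AA} {ψ : FF} (ha : a ∈ JW M k) (h : DW M ψ) (hk : M ≤ k) :
    rho a ψ = 0 := dw_zero.1 (ha 0 ψ h (dw_mono h (by omega)))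

theorem XW_mem : XX ∈ JW M 1 := fun m ψ _ h => by
  rw [dw_iff] at *
  intro i j hij
  rw [← rho_mul, show XX ^ i * YY ^ j * XX = XX ^ (i + 1) * YY ^ j by ring]
  exact h _ _ (by omega)

theorem YW_mem : YY ∈ JW M 2 := fun m ψ _ h => by
  rw [dw_iff] at *
  intro i j hij
  rw [← rho_mul, show XX ^ i * YY ^ j * YY = XX ^ i * YY ^ (j + 1) by ring]
  exact h _ _ (by omega)

/-- the shifts that are the identity up to order `k` -/
def KW (M k : ℕ) : AddSubgroup (ℤ × ℤ) where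
  carrier := {x | ee x - 1 ∈ JW M k}
  zero_mem' := by
    change ee 0 - 1 ∈ JW M k
    rw [ee_zero, sub_self]; exact zero_mem _
  add_mem' := fun {x y} hx hy => by
    change ee (x + y) - 1 ∈ JW M k
    rw [show ee (x + y) - 1 = ee x * (ee y - 1) + (ee x - 1) by rw [ee_add]; ring]
    exact add_mem (JW_left _ hy) hx
  neg_mem' := fun {x} hx => by
    change ee (-x) - 1 ∈ JW M k
    have h : ee (-x) * ee x = 1 := by rw [← ee_add, neg_add_cancel, ee_zero]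
    rw [show ee (-x) - 1 = -ee (-x) * (ee x - 1) by linear_combination h]
    exact JW_left _ hx

theorem mem_KW {k : ℕ} {x : ℤ × ℤ} : x ∈ KW M k ↔ ee x - 1 ∈ JW M k := Iff.rfl

theorem KW_X : ((1, 0) : ℤ × ℤ) ∈ KW M 1 := XW_mem

theorem KW_Y : ((0, 1) : ℤ × ℤ) ∈ KW M 2 := YW_mem

theorem KW_one (x : ℤ × ℤ) : x ∈ KW M 1 := by
  have h : x = x.1 • ((1, 0) : ℤ × ℤ) + x.2 • ((0, 1) : ℤ × ℤ) := by ext <;> simp
  rw [h]
  exact add_mem (zsmul_mem KW_X _) (zsmul_mem (mem_KW.2 (JW_le (by omega) YW_mem)) _)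

theorem KW_pow {k : ℕ} {x : ℤ × ℤ} (hx : x ∈ KW M k) (c : ℕ) :
    (3 : ℤ) ^ c • x ∈ KW M (3 ^ c * k) := by
  induction c with
  | zero => simpa using hx
  | succ c ih =>
    rw [pow_succ' (3 : ℤ), mul_smul, mem_KW, ee_cube, pow_succ', mul_assoc]
    exact JW_pow ih 3

theorem KW_ZM {a e N c κ r : ℕ} {y : ℤ × ℤ} (hy : y ∈ KW M κ) (hκ : 1 ≤ κ) (hN : M ≤ 3 ^ N)
    (h : ∀ k, k + c ≤ 3 ^ max a (k - e) * κ) {φ : ℤ × ℤ → ℤ} (hφ : SW (ZM a e N) r 0 φ) :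
    SW (KW M) r c fun w => φ w • y := by
  have := SW.map (J' := KW M) (zmultiplesHom (ℤ × ℤ) y) c (fun k x hx => ?_) hφ
  · rw [zero_add] at this; exact this
  · obtain ⟨s, rfl⟩ := mem_ZM.1 hx
    rw [zmultiplesHom_apply, mul_comm, mul_smul]
    refine zsmul_mem ?_ s
    rcases min_choice (max a (k - e)) N with h1 | h1 <;> rw [h1]
    · exact mem_KW.2 (JW_le (h k) (KW_pow hy _))
    · exact mem_KW.2 (JW_top (JW_le (hN.trans (Nat.le_mul_of_pos_right _ hκ)) (KW_pow hy N)))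

theorem SW_ee {r k : ℕ} {φ : ℤ × ℤ → ℤ × ℤ} (h : SW (KW M) r k φ) :
    SW (JW M) r k fun w => ee (φ w) - 1 :=
  SW.exp JW_mul JW_mono (JW_zero 1) ee ee_add (KW M) (fun _ _ h => h) h

theorem KW_TT {κ r k : ℕ} {y : ℤ × ℤ} (hy : y ∈ KW M κ) {φ : ℤ × ℤ → ℤ}
    (hφ : SW (TT κ) r k φ) : SW (KW M) r k fun w => φ w • y :=
  SW.map (J' := KW M) (zmultiplesHom (ℤ × ℤ) y) 0 (fun k x hx => by
    rw [zmultiplesHom_apply]
    rcases mem_TT.1 hx with h | rfl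
    · exact zsmul_mem (mem_KW.2 (JW_le h hy)) _
    · rw [zero_smul]; exact zero_mem _) hφ

theorem JW_TT {κ r k : ℕ} {a : AA} (ha : a ∈ JW M κ) {φ : ℤ × ℤ → ℤ}
    (hφ : SW (TT κ) r k φ) : SW (JW M) r k fun w => (φ w : ℤ) * a := by
  refine (SW.map (J' := JW M) (zmultiplesHom AA a) 0 (fun k x hx => ?_) hφ).congr fun w => ?_
  · rw [zmultiplesHom_apply]
    rcases mem_TT.1 hx with h | rfl
    · exact zsmul_mem (JW_le h ha) _
    · rw [zero_smul]; exact zero_mem _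
  · rw [zmultiplesHom_apply, zsmul_eq_mul]

/-- multiples of a shift are additive to first order -/
theorem ee_linW {κ : ℕ} {y : ℤ × ℤ} (hy : y ∈ KW M κ) (n : ℤ) :
    ee (n • y) - 1 - n * (ee y - 1) ∈ JW M (κ + κ) := by
  induction n using Int.induction_on with
  | zero => simp [ee_zero]
  | succ n ih =>
    have := add_mem ih (JW_mul κ κ _ _ (zsmul_mem hy (n : ℤ)) hy)
    rw [add_smul, one_smul, ee_add]
    refine (congrArg (· ∈ JW M (κ + κ)) ?_).mp this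
    push_cast; ring
  | pred n ih =>
    have h : (-(n : ℤ)) • y = (-(n : ℤ) - 1) • y + y := by module
    have := sub_mem ih (JW_mul κ κ _ _ (zsmul_mem hy (-(n : ℤ) - 1)) hy)
    rw [h, ee_add] at this
    refine (congrArg (· ∈ JW M (κ + κ)) ?_).mp this
    push_cast; ring

theorem SW_lin {κ : ℕ} {y : ℤ × ℤ} (hy : y ∈ KW M κ) : ∀ {r k : ℕ} {φ : ℤ × ℤ → ℤ}, 1 ≤ k →
    SW (TT κ) r k φ → SW (JW M) r (k + 1) fun w => ee (φ w • y) - 1 - (φ w : ℤ) * (ee y - 1) := by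
  have key : ∀ (k : ℕ) (x : ℤ), 1 ≤ k → x ∈ TT κ k →
      ee (x • y) - 1 - (x : ℤ) * (ee y - 1) ∈ JW M (k + 1) := fun k x hk hx => by
    rcases mem_TT.1 hx with h | rfl
    · exact JW_le (by omega) (ee_linW hy x)
    · simp [ee_zero]
  intro r
  induction r with
  | zero => exact fun hk h w => key _ _ hk (h w)
  | succ r ih =>
    intro k φ hk h
    refine ⟨fun w => key _ _ hk (h.1 w), fun d => ?_⟩
    have a1 := ih (by omega) (h.2 d)
    have a2 := SW.mono JW_mono (k := k + cost d + 1) (by omega)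
      (SW.mul JW_mul (SW_ee (KW_TT hy h.down)) (SW_ee (KW_TT hy (h.2 d))))
    rw [add_right_comm]
    refine (a1.add a2).congr fun w => ?_
    have e : φ (w + dir d) • y = φ w • y + (φ (w + dir d) - φ w) • y := by module
    beta_reduce
    rw [e, ee_add]
    push_cast; ring

theorem dw_succ {m : ℕ} {ψ : FF} (h1 : DW m (rho XX ψ)) (h2 : DW (m - 1) (rho YY ψ)) :
    DW (m + 1) ψ := by
  rw [dw_iff] at *
  intro i j hij
  cases i with
  | zero =>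
    obtain ⟨j, rfl⟩ : ∃ j', j = j' + 1 := ⟨j - 1, by omega⟩
    have := h2 0 j (by omega)
    rw [← rho_mul] at this
    rw [← this]; congr 2; ring
  | succ i =>
    have := h1 i j (by omega)
    rw [← rho_mul] at this
    rw [← this]; congr 2; ring

theorem KW_dir (d : Bool) : dir d ∈ KW M (cost d) := by
  cases d
  · exact KW_Y
  · exact KW_X

/-- the diagonal of a family of operators -/
theorem dw_diag {χ : FF} (hM : DW M χ) : ∀ (r m k : ℕ) (f : ℤ × ℤ → AA), m ≤ r →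
    SW (JW M) r k f → DW (m + k) χ → DW m fun w => rho (f w) χ w := by
  have key : ∀ (r k : ℕ) (f : ℤ × ℤ → AA), SW (JW M) r k f → DW (0 + k) χ →
      DW 0 fun w => rho (f w) χ w := fun r k f hf hχ => by
    rw [dw_zero]
    funext w
    rw [dw_zero.1 (hf.pt w 0 χ hM hχ)]
  intro r
  induction r with
  | zero =>
    intro m k f hm hf hχ
    obtain rfl : m = 0 := by omega
    exact key _ _ f hf hχ
  | succ r ih =>
    intro m k f hm hf hχ
    cases m with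
    | zero => exact key _ _ f hf hχ
    | succ m =>
      have step : ∀ (d : Bool) (m' : ℕ), m' ≤ r → m + 1 ≤ m' + cost d →
          DW m' (rho (ee (dir d) - 1) fun w => rho (f w) χ w) := fun d m' h0 h0' => by
        have h1 : SW (JW M) r (0 + (k + cost d)) fun w => ee (dir d) * (f (w + dir d) - f w) :=
          SW.mul JW_mul (SW.const (JW_zero _)) (hf.2 d)
        have h2 : SW (JW M) r (cost d + k) fun w => (ee (dir d) - 1) * f w :=
          SW.mul JW_mul (SW.const (KW_dir d)) hf.down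
        rw [zero_add] at h1
        rw [add_comm] at h2
        have h3 := ih m' (k + cost d) _ h0 (h1.add h2) (dw_mono hχ (by omega))
        have h4 : (rho (ee (dir d) - 1) fun w => rho (f w) χ w) = fun w =>
            rho (ee (dir d) * (f (w + dir d) - f w) + (ee (dir d) - 1) * f w) χ w := by
          funext w
          rw [show ee (dir d) * (f (w + dir d) - f w) + (ee (dir d) - 1) * f w =
              ee (dir d) * f (w + dir d) - f w by ring,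
            rho_sub, rho_sub, rho_one, rho_mul, Pi.sub_apply, Pi.sub_apply, rho_ee, rho_ee]
        rw [h4]; exact h3
      exact dw_succ (step true m (by omega) le_rfl)
        (step false (m - 1) (by omega) (by simp only [cost]; simp; omega))

theorem cen_add {κ : ℕ} {y : ℤ × ℤ} (hy : y ∈ KW M κ) :
    ee y - ee (-y) + (ee y - 1) ∈ JW M (κ + κ) := by
  have h : ee (-y) * ee y = 1 := by rw [← ee_add, neg_add_cancel, ee_zero]
  refine (congrArg (· ∈ JW M (κ + κ)) ?_).mp (JW_left (-ee (-y)) (JW_mul _ _ _ _ hy hy))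
  linear_combination (2 - ee y) * h + (1 - ee y) * three

theorem cenW {κ : ℕ} {y : ℤ × ℤ} (hy : y ∈ KW M κ) : ee y - ee (-y) ∈ JW M κ := by
  have := sub_mem (mem_KW.1 hy) (mem_KW.1 (neg_mem hy))
  rwa [sub_sub_sub_cancel_right] at this

theorem sum_add {κ : ℕ} {y : ℤ × ℤ} (hy : y ∈ KW M κ) : ee y + ee (-y) + 1 ∈ JW M κ := by
  refine (congrArg (· ∈ JW M κ) ?_).mp (add_mem (mem_KW.1 hy) (mem_KW.1 (neg_mem hy)))
  linear_combination (-1 : AA) * three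

theorem C1W : C1 ∈ JW M 1 := cenW KW_X

theorem C2W : C2 ∈ JW M 2 := cenW KW_Y

theorem ccW (i j : ℕ) : C1 ^ i * C2 ^ j ∈ JW M (i + 2 * j) := by
  have := JW_mul _ _ _ _ (JW_pow (C1W (M := M)) i) (JW_pow C2W j)
  rwa [mul_one, mul_comm j] at this

theorem cofW_zero {m i j : ℕ} {ψ : FF} (h : DW m ψ) (hm : m ≤ i + 2 * j) : cof i j ψ = 0 := by
  rw [cof_eq, JW_kill (ccW i j) h hm]
  rfl

theorem pow_subW {k : ℕ} {a b : AA} (ha : a ∈ JW M k) (hb : b ∈ JW M k)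
    (h : a - b ∈ JW M (k + 1)) (i : ℕ) : a ^ i - b ^ i ∈ JW M (i * k + 1) := by
  induction i with
  | zero => simp
  | succ i ih =>
    have h1 := JW_mul _ _ _ _ ih ha
    have h2 := JW_mul _ _ _ _ (JW_pow hb i) h
    rw [show i * k + 1 + k = (i + 1) * k + 1 by ring] at h1
    rw [show i * k + (k + 1) = (i + 1) * k + 1 by ring] at h2
    refine (congrArg (· ∈ JW M ((i + 1) * k + 1)) ?_).mp (add_mem h1 h2)
    ring

theorem C1X : C1 + XX ∈ JW M 2 := cen_add KW_X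

theorem C2Y : C2 + YY ∈ JW M 4 := cen_add KW_Y

theorem rowDEGW : RowDEGW where
  zero _ _ _ _ h hm := cofW_zero h hm
  down m ψ h hc := by
    rw [dw_iff]
    intro i j hij
    rcases hij.eq_or_lt with e | e
    swap
    · exact (dw_iff _ _).1 h i j e
    have a1 : XX ^ i - (-C1) ^ i ∈ JW (m + 1) (i * 1 + 1) :=
      pow_subW XW_mem (neg_mem C1W) (by rw [sub_neg_eq_add, add_comm XX]; exact C1X) i
    have a2 : YY ^ j - (-C2) ^ j ∈ JW (m + 1) (j * 2 + 1) :=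
      pow_subW YW_mem (neg_mem C2W)
        (by rw [sub_neg_eq_add, add_comm YY]; exact JW_le (k := 2 + 1) (by omega) C2Y) j
    have a3 := JW_kill (JW_mul _ _ _ _ a1 (JW_pow YW_mem j)) h (by omega)
    have a4 := JW_kill (JW_mul _ _ _ _ (JW_pow (neg_mem C1W) i) a2) h (by omega)
    have a5 : rho (XX ^ i * YY ^ j) ψ = rho ((((-1) ^ (i + j) : ℤ) : AA) * (C1 ^ i * C2 ^ j)) ψ := by
      rw [← sub_eq_zero, ← rho_sub, ← add_zero (0 : FF)]
      nth_rewrite 1 [← a3]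
      rw [← a4, ← rho_add]
      congr 2
      rw [neg_pow C1, neg_pow C2]
      push_cast; ring
    funext w
    have a6 := congrFun (JW_kill (JW_mul _ _ _ _ (mem_KW.1 (KW_one w))
      (JW_mul _ _ _ _ (JW_pow XW_mem i) (JW_pow YW_mem j))) h (by omega)) 0
    rw [rho_mul, rho_sub, rho_one, Pi.sub_apply, rho_ee, zero_add, Pi.zero_apply, sub_eq_zero] at a6
    rw [a6, a5, rho_int, ← cof_eq, hc i j e.symm, mul_zero]
    rfl

theorem X3_eq : X3 = XX ^ 3 := ee_cube _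

theorem KW_X3 : (3 : ℤ) • ((1, 0) : ℤ × ℤ) ∈ KW M 3 := by
  simpa using KW_pow (KW_X (M := M)) 1

theorem X3W : X3 ∈ JW M 3 := KW_X3

theorem X3C : X3 + C1 ^ 3 ∈ JW M 4 := by
  have h : XX - -C1 ∈ JW M (1 + 1) := by rw [sub_neg_eq_add, add_comm XX]; exact C1X
  have h2 : XX ^ 3 - (-C1) ^ 3 ∈ JW M 4 := pow_subW XW_mem (neg_mem C1W) h 3
  rw [X3_eq, show XX ^ 3 + C1 ^ 3 = XX ^ 3 - (-C1) ^ 3 by ring]
  exact h2

theorem three_aux (m N : ℕ) (ψ : ℤ × ℤ → ZMod 3) (g : ℤ × ℤ → ℤ × ℤ)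
    (u l n₁ n₂ n₁₁ n₁₂ n₂₁ n₂₂ t : ℤ) (hψ : DW (m + 1) ψ) (hm : m < 3 ^ N) (hu : ¬ 3 ∣ u)
    (h1 : 9 ∣ n₁ - u * (3 * t)) (h11 : 9 ∣ n₁₁ - u) (h12 : 9 ∣ n₁₂) (h2 : 3 ∣ n₂) (h21 : 3 ∣ n₂₁)
    (h22 : 3 ∣ n₂₂ - u)
    (g1 : ∀ w : ℤ × ℤ, (3 : ℤ) ^ N ∣ (u + 9 * l * w.1) * (g w).1 - (n₁ + n₁₁ * w.1 + n₁₂ * w.2))
    (g2 : ∀ w : ℤ × ℤ, (3 : ℤ) ^ N ∣ (u + 9 * l * w.1) * (g w).2 - (n₂ + n₂₁ * w.1 + n₂₂ * w.2))
    (i j : ℕ) (hij : m ≤ i + 2 * j + 3) : cof i j (ψ ∘ g) = cof i j ψ - t * cof (i + 3) j ψ := by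
  obtain ⟨d1, e1⟩ := h1
  obtain ⟨d11, e11⟩ := h11
  obtain ⟨d12, e12⟩ := h12
  obtain ⟨d2, e2⟩ := h2
  obtain ⟨d21, e21⟩ := h21
  obtain ⟨d22, e22⟩ := h22
  have e9 : 9 * l = 3 * (3 * l) := by ring
  rw [e9] at g1 g2
  have r1 : SW (ZM 2 1 N) m 0 fun w => (g w).1 - (3 * t + w.1) :=
    SW_rem hu g1 (SW_pow (b := 2) le_rfl le_rfl (SW_cub m d1 (d11 - 3 * l * t) d12 (-l) 0 0))
      fun w => by linear_combination e1 + w.1 * e11 + w.2 * e12
  have r2 : SW (ZM 1 1 N) m 0 fun w => (g w).2 - w.2 :=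
    SW_rem hu g2 ((SW_pow (b := 1) le_rfl le_rfl (SW_quad m 0 d2 d21 d22 0)).add
      (SW_pow (b := 2) (by omega) le_rfl (SW_cub m 0 0 0 0 (-l) 0)))
      fun w => by linear_combination e2 + w.1 * e21 + w.2 * e22
  have s1 := KW_ZM (c := 4) (KW_X (M := m + 1)) le_rfl hm (fun k => by
    have := six_le (max 2 (k - 1)); omega) r1
  have s2 := KW_ZM (c := 4) (KW_Y (M := m + 1)) (by omega) hm (fun k => by
    have := six_le (max 1 (k - 1)); omega) r2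
  have s3 := SW.mul JW_mul (SW.const (JW_zero (ee (t • (3 : ℤ) • (1, 0))))) (SW_ee (s1.add s2))
  have d := dw_diag hψ m (m - 3) _ _ (by omega) s3 (dw_mono hψ (by omega))
  have z1 := cofW_zero (i := i) (j := j) d (by omega)
  have hdec : ψ ∘ g = rho (ee (t • (3 : ℤ) • (1, 0))) ψ + fun w => rho (ee (t • (3 : ℤ) • (1, 0)) *
      (ee (((g w).1 - (3 * t + w.1)) • ((1, 0) : ℤ × ℤ) + ((g w).2 - w.2) • ((0, 1) : ℤ × ℤ)) - 1))
        ψ w := by
    funext w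
    have hg : g w = w + (t • (3 : ℤ) • (1, 0) + (((g w).1 - (3 * t + w.1)) • ((1, 0) : ℤ × ℤ) +
        ((g w).2 - w.2) • ((0, 1) : ℤ × ℤ))) := by
      ext <;> simp
      ring
    rw [Function.comp_apply, Pi.add_apply, ← Pi.add_apply (rho _ ψ), ← rho_add, mul_sub, mul_one,
      add_sub_cancel, ← ee_add, rho_ee, ← hg]
  have b1 : ee (t • (3 : ℤ) • (1, 0)) - 1 + t * C1 ^ 3 ∈ JW (m + 1) 4 := by
    refine (congrArg (· ∈ JW (m + 1) 4) ?_).mp
      (add_mem (JW_le (by omega) (ee_linW KW_X3 t)) (JW_left (t : AA) X3C))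
    rw [X3]; ring
  have hb := congrFun (JW_kill (JW_mul _ _ _ _ (ccW i j) b1) hψ (by omega)) 0
  rw [show C1 ^ i * C2 ^ j * (ee (t • (3 : ℤ) • (1, 0)) - 1 + t * C1 ^ 3) =
    C1 ^ i * C2 ^ j * ee (t • (3 : ℤ) • (1, 0)) - C1 ^ i * C2 ^ j +
      t * (C1 ^ (i + 3) * C2 ^ j) by ring] at hb
  rw [cof_eq] at z1
  rw [hdec, cof_eq, map_add, Pi.add_apply, z1, add_zero, ← rho_mul, cof_eq, cof_eq]
  simp only [rho_sub, rho_add, rho_int, Pi.add_apply, Pi.sub_apply, Pi.zero_apply] at hb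
  linear_combination hb

theorem der_B1 : Der 0 1 0 B1 C1 := fun κ => by
  funext w
  simp only [B1, C1_eq, rho_sub, rho_add, Pi.sub_apply, Pi.add_apply, rho_ee, af, Prod.fst_add,
    Prod.fst_neg]
  push_cast; ring

theorem sq_cof (i j : ℕ) (χ : FF) :
    rho (C1 ^ i * C2 ^ j) (fun w => ((w.1 ^ 2 : ℤ) : ZMod 3) * χ w) 0 =
      rho (i * (C1 ^ (i - 1) * C2 ^ j * C1 +
        ((i - 1 : ℕ) : AA) * C1 ^ (i - 1 - 1) * B1 * C2 ^ j * B1)) χ 0 := by
  have e : (fun w : ℤ × ℤ => ((w.1 ^ 2 : ℤ) : ZMod 3) * χ w) =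
      fun w => (af 0 1 0 w : ZMod 3) * ((af 0 1 0 w : ZMod 3) * χ w) := by
    funext w; simp only [af]; push_cast; ring
  have h0 : ((af 0 1 0 0 : ℤ) : ZMod 3) = 0 := by simp [af]
  have h1 := congrFun (((der_cof 0 1 0 (i - 1) j).mul der_B1) χ) 0
  rw [e, der_cof 0 1 0 i j, Pi.add_apply, h0, zero_mul, zero_add,
    show C1 ^ i * (j * C2 ^ (j - 1) * (((0 : ℤ) : AA) * B2)) +
      i * C1 ^ (i - 1) * (((1 : ℤ) : AA) * B1) * C2 ^ j =
      ((i : ℤ) : AA) * (C1 ^ (i - 1) * C2 ^ j * B1) by push_cast; ring, rho_int, h1, Pi.add_apply,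
    h0, zero_mul, zero_add, ← rho_int]
  refine congrArg (fun a => rho a χ 0) ?_
  push_cast; ring

theorem term1 (i j k : ℕ) {E : AA} (hE : E ∈ JW M (k + 1)) :
    i * C1 ^ (i - 1) * C2 ^ j * E ∈ JW M (i + 2 * j + k) := by
  cases i with
  | zero => simp
  | succ i =>
    have := JW_left ((i + 1 : ℕ) : AA) (JW_mul _ _ _ _ (ccW i j) hE)
    rw [show i + 2 * j + (k + 1) = i + 1 + 2 * j + k by omega] at this
    refine (congrArg (· ∈ JW M (i + 1 + 2 * j + k)) ?_).mp this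
    rw [Nat.add_sub_cancel]; ring

theorem term2 (i j k : ℕ) {E : AA} (hE : E ∈ JW M (k + 2)) :
    j * C1 ^ i * C2 ^ (j - 1) * E ∈ JW M (i + 2 * j + k) := by
  cases j with
  | zero => simp
  | succ j =>
    have := JW_left ((j + 1 : ℕ) : AA) (JW_mul _ _ _ _ (ccW i j) hE)
    rw [show i + 2 * j + (k + 2) = i + 2 * (j + 1) + k by omega] at this
    refine (congrArg (· ∈ JW M (i + 2 * (j + 1) + k)) ?_).mp this
    rw [Nat.add_sub_cancel]; ring

theorem term3 (i j : ℕ) :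
    i * (((i - 1 : ℕ) : AA) * C1 ^ (i - 1 - 1) * B1 * C2 ^ j * B1) * X3 +
      i * (i - 1) * (C1 ^ (i + 1) * C2 ^ j) ∈ JW M (i + 2 * j + 2) := by
  rcases i with _ | _ | i
  · simp
  · simp
  · have b1 : B1 + 1 ∈ JW M 1 := sum_add KW_X
    have h1 := add_mem (JW_left (B1 - 1) (JW_mul _ _ _ _ b1 X3W)) X3C
    have := JW_left ((i + 1 + 1 : ℕ) * (i + 1 : ℕ) : AA) (JW_mul _ _ _ _ (ccW i j) h1)
    rw [show i + 2 * j + (1 + 3) = i + 1 + 1 + 2 * j + 2 by omega] at this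
    refine (congrArg (· ∈ JW M (i + 1 + 1 + 2 * j + 2)) ?_).mp this
    simp only [Nat.add_sub_cancel]
    push_cast; ring

theorem bigW (i j : ℕ) (z L c q r t : ℤ) :
    C1 ^ i * C2 ^ j * (1 - t * C1) +
      (z * (C1 ^ i * C2 ^ j * X3) +
        (C1 ^ i * (j * C2 ^ (j - 1) * (c * B2)) + i * C1 ^ (i - 1) * (L * B1) * C2 ^ j) * X3) -
      q * (i * (C1 ^ (i - 1) * C2 ^ j * C1 +
        ((i - 1 : ℕ) : AA) * C1 ^ (i - 1 - 1) * B1 * C2 ^ j * B1) * X3) +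
      (C1 ^ i * (j * C2 ^ (j - 1) * (((0 : ℤ) : AA) * B2)) +
        i * C1 ^ (i - 1) * (r * B1) * C2 ^ j) * YY -
      (C1 ^ i * C2 ^ j - t * (C1 ^ (i + 1) * C2 ^ j) + (j * c : ℤ) * (C1 ^ (i + 3) * C2 ^ (j - 1)) +
        (i * (i - 1) * q : ℤ) * (C1 ^ (i + 1) * C2 ^ j) +
        (i * r : ℤ) * (C1 ^ (i - 1) * C2 ^ (j + 1))) ∈ JW M (i + 2 * j + 2) := by
  have b1 : B1 + 1 ∈ JW M 1 := sum_add KW_X
  have b2 : B2 + 1 ∈ JW M 1 := JW_le (by omega) (sum_add KW_Y)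
  have a1 := JW_left (z : AA) (JW_le (k := i + 2 * j + 2) (by omega)
    (JW_mul _ _ _ _ (ccW (M := M) i j) X3W))
  have a2 := JW_left (c : AA) (term2 i j 2 (sub_mem (JW_mul 1 3 _ _ b2 X3W) X3C))
  have a3 := JW_left (L * B1 - q * C1 : AA) (term1 (M := M) i j 2 X3W)
  have a4 := JW_left (q : AA) (term3 (M := M) i j)
  have a5 := JW_left (r : AA) (term1 i j 2 (sub_mem (JW_mul 1 2 _ _ b1 YW_mem)
    (JW_le (by omega) C2Y)))
  refine (congrArg (· ∈ JW M (i + 2 * j + 2)) ?_).mp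
    (add_mem (sub_mem (add_mem (add_mem a1 a2) a3) a4) a5)
  push_cast; ring

theorem one_aux (m N : ℕ) (ψ : ℤ × ℤ → ZMod 3) (g : ℤ × ℤ → ℤ × ℤ)
    (u l n₁ n₂ n₁₁ n₁₂ n₂₁ n₂₂ t c q r : ℤ) (hψ : DW (m + 1) ψ) (hm : m < 3 ^ N) (hu : ¬ 3 ∣ u)
    (hl : 3 ∣ l - u * q) (h1 : 3 ∣ n₁ - u * t) (h11 : 3 ∣ n₁₁ - u) (h12 : 9 ∣ n₁₂ - u * (3 * c))
    (h21 : 3 ∣ n₂₁ - u * r) (h22 : 3 ∣ n₂₂ - u)
    (g1 : ∀ w : ℤ × ℤ, (3 : ℤ) ^ N ∣ (u + 3 * l * w.1) * (g w).1 - (n₁ + n₁₁ * w.1 + n₁₂ * w.2))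
    (g2 : ∀ w : ℤ × ℤ, (3 : ℤ) ^ N ∣ (u + 3 * l * w.1) * (g w).2 - (n₂ + n₂₁ * w.1 + n₂₂ * w.2)) :
    DW (m + 1) (ψ ∘ g) ∧ ∀ i j : ℕ, m ≤ i + 2 * j + 1 → cof i j (ψ ∘ g) =
      cof i j ψ - t * cof (i + 1) j ψ + j * c * cof (i + 3) (j - 1) ψ +
        i * (i - 1) * q * cof (i + 1) j ψ + i * r * cof (i - 1) (j + 1) ψ := by
  obtain ⟨z, d1, e1⟩ := exists_z hu h1
  obtain ⟨L, d11, e11⟩ := exists_z (n := n₁₁ - 3 * (l * t)) (t := 1) hu (by omega)
  obtain ⟨z', d2, e2⟩ : ∃ z' d2, n₂ - u * z' = 3 * d2 := by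
    obtain ⟨a, b, hab⟩ : IsCoprime 3 u := Int.prime_three.irreducible.coprime_iff_not_dvd.2 hu
    exact ⟨n₂ * b, n₂ * a, by linear_combination (-n₂) * hab⟩
  obtain ⟨dl, el⟩ := hl
  obtain ⟨d12, e12⟩ := h12
  obtain ⟨d21, e21⟩ := h21
  obtain ⟨d22, e22⟩ := h22
  have r1 : SW (ZM 2 1 N) (m + 1) 0 fun w =>
      (g w).1 - (t + w.1 + 3 * (z + L * w.1 + c * w.2 + -q * w.1 ^ 2)) :=
    SW_rem hu g1 (SW_pow (b := 2) le_rfl le_rfl
      (SW_cub _ d1 (d11 - l * z) d12 (-dl - l * L) (-(l * c)) (l * q)))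
      fun w => by linear_combination e1 + w.1 * e11 + w.2 * e12 - 3 * w.1 ^ 2 * el
  have r2 : SW (ZM 1 2 N) (m + 1) 0 fun w => (g w).2 - (z' + w.2 + (0 + r * w.1 + 0 * w.2)) :=
    SW_rem hu g2 (SW_pow (b := 1) le_rfl le_rfl
      (SW_cub _ d2 (d21 - l * z') d22 (-(l * r)) (-l) 0))
      fun w => by linear_combination e2 + w.1 * e21 + w.2 * e22
  have s1 := KW_ZM (c := 2) (KW_X (M := m + 1)) le_rfl hm (fun k => by
    have := six_le (max 2 (k - 1)); omega) r1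
  have s2 := KW_ZM (c := 2) (KW_Y (M := m + 1)) (by omega) hm (fun k => by
    have := six_le (max 1 (k - 2)); omega) r2
  have q1 := SW_quad (m + 1) 1 z L c (-q)
  have q2 : SW (TT 2) (m + 1) 1 fun w => 0 + r * w.1 + 0 * w.2 :=
    SW_aff _ _ _ (by omega) (by omega) (by omega)
  have a0 : SW (JW (m + 1)) (m + 1) 1 fun _ => ee (t, z') - 1 := SW.const (KW_one _)
  have a1 := SW_ee (KW_TT (KW_X3 (M := m + 1)) q1)
  have a2 := SW_ee (KW_TT (KW_Y (M := m + 1)) q2)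
  have a3 := SW_ee (s1.add s2)
  have b0 : ee (t, z') - 1 + t * C1 ∈ JW (m + 1) 2 := by
    have e : ((t, z') : ℤ × ℤ) = t • ((1, 0) : ℤ × ℤ) + z' • ((0, 1) : ℤ × ℤ) := by ext <;> simp
    refine (congrArg (· ∈ JW (m + 1) 2) ?_).mp (add_mem (add_mem (ee_linW KW_X t)
      (JW_left (t : AA) C1X)) (JW_left (ee (t • (1, 0))) (mem_KW.1 (zsmul_mem KW_Y z'))))
    rw [e, ee_add, XX]; ring
  have b1 := SW_lin (KW_X3 (M := m + 1)) le_rfl q1
  have b2 := SW_lin (KW_Y (M := m + 1)) le_rfl q2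
  have one : SW (JW (m + 1)) (m + 1) 0 fun _ => (1 : AA) := SW.const (JW_zero 1)
  have m0 := fun {k : ℕ} {f : ℤ × ℤ → AA} (h : SW (JW (m + 1)) (m + 1) k f) =>
    (SW.mono JW_mono (Nat.zero_le k) h).add one
  have c1 := SW.mul JW_mul a0 a1
  have c2 := SW.mul JW_mul ((a0.add a1).add (SW.mono JW_mono (by omega) c1)) a2
  have c3 := SW.mul JW_mul (SW.mul JW_mul (SW.mul JW_mul (m0 a0) (m0 a1)) (m0 a2)) a3
  have rem := ((((SW.const b0).add b1).add b2).add (c1.add c2)).add c3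
  have dr := dw_diag hψ (m + 1) (m - 1) _ _ (by omega) rem (dw_mono hψ (by omega))
  have main : SW (JW (m + 1)) (m + 1) 0 fun w => 1 - t * C1 +
      ((z + L * w.1 + c * w.2 + -q * w.1 ^ 2 : ℤ) : AA) * X3 +
      ((0 + r * w.1 + 0 * w.2 : ℤ) : AA) * YY :=
    ((SW.const (JW_zero _)).add (SW.mono JW_mono (by omega) (JW_TT X3W q1))).add
      (SW.mono JW_mono (by omega) (JW_TT YW_mem q2))
  have dm := dw_diag hψ (m + 1) (m + 1) _ _ le_rfl main hψ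
  have hdec : ψ ∘ g =
      (fun w => rho (1 - t * C1 + ((z + L * w.1 + c * w.2 + -q * w.1 ^ 2 : ℤ) : AA) * X3 +
        ((0 + r * w.1 + 0 * w.2 : ℤ) : AA) * YY) ψ w) + fun w => rho (ee (g w - w) - (1 - t * C1 +
          ((z + L * w.1 + c * w.2 + -q * w.1 ^ 2 : ℤ) : AA) * X3 +
        ((0 + r * w.1 + 0 * w.2 : ℤ) : AA) * YY)) ψ w := by
    funext w
    rw [Pi.add_apply, ← Pi.add_apply (rho _ ψ), ← rho_add, add_sub_cancel, rho_ee, add_sub_cancel]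
    rfl
  have dr' : DW (m - 1) fun w => rho (ee (g w - w) - (1 - t * C1 +
      ((z + L * w.1 + c * w.2 + -q * w.1 ^ 2 : ℤ) : AA) * X3 +
        ((0 + r * w.1 + 0 * w.2 : ℤ) : AA) * YY)) ψ w := by
    refine (congrArg (DW (m - 1)) (funext fun w => congrArg (fun a => rho a ψ w) ?_)).mp dr
    have hg : g w - w = (t, z') + (z + L * w.1 + c * w.2 + -q * w.1 ^ 2) • (3 : ℤ) • (1, 0) +
        (0 + r * w.1 + 0 * w.2) • (0, 1) +
        (((g w).1 - (t + w.1 + 3 * (z + L * w.1 + c * w.2 + -q * w.1 ^ 2))) • ((1, 0) : ℤ × ℤ) +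
          ((g w).2 - (z' + w.2 + (0 + r * w.1 + 0 * w.2))) • ((0, 1) : ℤ × ℤ)) := by
      ext <;> simp <;> ring
    rw [hg, ee_add ((t, z') + _ + _), ee_add ((t, z') + _), ee_add (t, z'), X3, YY]
    ring
  refine ⟨by rw [hdec]; exact dw_add dm (dw_mono dr' (by omega)), fun i j hij => ?_⟩
  have z1 := cofW_zero (i := i) (j := j) dr' (by omega)
  have hsplit : (fun w : ℤ × ℤ => rho (1 - t * C1 +
      ((z + L * w.1 + c * w.2 + -q * w.1 ^ 2 : ℤ) : AA) * X3 +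
      ((0 + r * w.1 + 0 * w.2 : ℤ) : AA) * YY) ψ w) = rho (1 - t * C1) ψ +
        (fun w => (af z L c w : ZMod 3) * rho X3 ψ w) -
        (q : ZMod 3) • (fun w => ((w.1 ^ 2 : ℤ) : ZMod 3) * rho X3 ψ w) +
        fun w => (af 0 r 0 w : ZMod 3) * rho YY ψ w := by
    funext w
    simp only [rho_add, rho_int, Pi.add_apply, Pi.sub_apply, Pi.smul_apply, af, smul_eq_mul]
    push_cast; ring
  have hb := congrFun (JW_kill (bigW i j z L c q r t) hψ (by omega)) 0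
  rw [cof_eq] at z1
  rw [hdec, cof_eq, map_add, Pi.add_apply, z1, add_zero, hsplit, map_add, map_sub, map_add,
    map_smul, der_cof, der_cof]
  simp only [Pi.add_apply, Pi.sub_apply, Pi.smul_apply, smul_eq_mul]
  rw [sq_cof]
  simp only [cof_eq, ← rho_mul]
  simp only [rho_sub, rho_add, rho_int, Pi.add_apply, Pi.sub_apply, Pi.zero_apply] at hb
  have f1 : af z L c 0 = z := by simp [af]
  have f2 : af 0 r 0 0 = 0 := by simp [af]
  rw [f1, f2]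
  push_cast at hb ⊢
  linear_combination hb

theorem rowTAYW : RowTAYW := ⟨one_aux, three_aux⟩

end

end Pool.Agent.MP_5f72fe_nt.H41
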