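import Pool.Agent.MP_5f72fe_nt.H41.RA1

/-! The terms of the Poincare series with fixed `a > 0`. -/

namespace Pool.Agent.MP_5f72fe_nt.H41

open Pool.Agent.MP_5f72fe_nt.H3 Complex
open scoped Real

noncomputable section

/-- the constant of the square root -/
def kap (N a : ℕ) : ℂ := E (1 / 8) / (√(2 * a / N) : ℝ)

theorem norm_E_real (J : RowJH) (x : ℝ) : ‖E x‖ = 1 := by
  rw [J.norm, ofReal_im]; simp

theorem norm_kap (J : RowJH) (N a : ℕ) (hN : 1 ≤ N) (ha : 1 ≤ a) : ‖kap N a‖ ≤ N := by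
  have ha0 : (1 : ℝ) ≤ a := by exact_mod_cast ha
  have hN0 : (1 : ℝ) ≤ N := by exact_mod_cast hN
  have e : ‖E (1 / 8)‖ = 1 := by
    rw [← norm_E_real J (1 / 8)]; push_cast; rfl
  have h0 : 0 < √(2 * a / N : ℝ) := Real.sqrt_pos.2 (by positivity)
  have h1 : 1 / (N : ℝ) ≤ √(2 * a / N : ℝ) := Real.le_sqrt_of_sq_le (by
    rw [div_pow, div_le_div_iff₀ (by positivity) (by positivity)]
    nlinarith [mul_le_mul ha0 hN0 zero_le_one (by linarith)])
  rw [kap, norm_div, e, Complex.norm_real, Real.norm_of_nonneg h0.le, div_le_iff₀ h0]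
  rw [div_le_iff₀ (by positivity)] at h1
  linarith

/-- the summand of the Lipschitz formula -/
def lt (k : ℕ) (w : ℝ) (a : ℕ) (t : ℤ) (τ : ℂ) (l : ℤ) : ℂ :=
  E (-(t / (4 * a) * l)) * (a * τ + l) ^ (-((k + 1 / 2 : ℝ) : ℂ)) * E (-w / (a * τ + l))

theorem norm_lt (J : RowJH) (k : ℕ) (w : ℝ) (hw : 0 ≤ w) (a : ℕ) (ha : 1 ≤ a) (t : ℤ) (τ : ℂ)
    (hτ : 0 < τ.im) (l : ℤ) : ‖lt k w a t τ l‖ ≤ ‖(a : ℂ) * τ + l‖ ^ (-(k + 1 / 2 : ℝ)) := by
  have ha0 : (0 : ℝ) < a := by exact_mod_cast ha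
  have e1 : ‖E (-(t / (4 * a) * l))‖ = 1 := by
    rw [← norm_E_real J (-(t / (4 * a) * l))]; push_cast; rfl
  have h := norm_E_le J w hw (a * τ + l) (by simpa using mul_pos ha0 hτ)
  rw [lt, norm_mul, norm_mul, e1, one_mul, ← ofReal_neg (k + 1 / 2 : ℝ), norm_cpow_real]
  exact mul_le_of_le_one_right (by positivity) h

/-- the coefficient -/
def co (N m a b c : ℕ) : ℂ := (chi N a b c : ℂ) * E (m * b / (2 * a)) * kap N a

theorem norm_chiE (J : RowJH) (C : RowCHI) (N m a b : ℕ) (c : ℤ) :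
    ‖(chi N a b c : ℂ) * E (m * b / (2 * a))‖ ≤ 1 := by
  have e1 : ‖E (m * b / (2 * a))‖ = 1 := by
    rw [← norm_E_real J (m * b / (2 * a))]; push_cast; rfl
  rw [norm_mul, e1, mul_one, Complex.norm_intCast]
  exact_mod_cast C.abs N a b c

theorem norm_co (J : RowJH) (C : RowCHI) (N m a b c : ℕ) (hN : 1 ≤ N) (ha : 1 ≤ a) :
    ‖co N m a b c‖ ≤ N := by
  rw [co, norm_mul]
  exact (mul_le_of_le_one_left (norm_nonneg _) (norm_chiE J C N m a b c)).trans
    (norm_kap J N a hN ha)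

theorem Ot_eq (J : RowJH) (C : RowCHI) (N k m μ a : ℕ) (hN : 1 ≤ N) (hs : Squarefree N)
    (ha : 1 ≤ a) (τ : ℂ) (hτ : 0 < τ.im) (δ : ℤ) :
    Ot N k m μ (a, δ) τ = ∑ b ∈ (Finset.range (2 * a)).filter fun b => b % 2 = μ,
      ∑ c ∈ Finset.range N, co N m a b c *
        lt k (N * m ^ 2 / (4 * a)) a ((b ^ 2 - 4 * a * c) / N) τ δ := by
  have ha0 : (0 : ℝ) < a := by exact_mod_cast ha
  have hN0 : (0 : ℝ) < N := by exact_mod_cast hN
  have ha1 : (a : ℂ) ≠ 0 := by exact_mod_cast ha0.ne'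
  have hN1 : (N : ℂ) ≠ 0 := by exact_mod_cast hN0.ne'
  have haz : (a : ℤ) ≠ 0 := by omega
  have hz : 0 < ((a : ℂ) * τ + δ).im := by simpa using mul_pos ha0 hτ
  have hne : (a : ℂ) * τ + δ ≠ 0 := fun h => by rw [h, zero_im] at hz; exact hz.false
  have hv : ((a : ℤ), δ) ≠ 0 := fun h => haz (congrArg Prod.fst h)
  have e1 : (-2 * I * a * (a * τ + δ) / N : ℂ) ^ (-1 / 2 : ℂ) =
      kap N a * (a * τ + δ) ^ (-(1 / 2) : ℂ) := by
    have h1 := J.scale (2 * a / N) (a * τ + δ) (by positivity)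
    have h2 := (J.root _ hz).1
    have h3 : (-2 * I * a * (a * τ + δ) / N : ℂ) = -I * (((2 * a / N : ℝ) : ℂ) * (a * τ + δ)) := by
      push_cast; ring
    rw [neg_div (2 : ℂ) 1, cpow_neg, cpow_neg, h3, ← Jh, h1, h2, kap, mul_inv, mul_inv,
      div_eq_mul_inv (E (1 / 8))]
    have := J.ne (1 / 8)
    field_simp
  have e2 : (a * τ + δ : ℂ) ^ (-((k + 1 / 2 : ℝ) : ℂ)) =
      (a * τ + δ) ^ (-(1 / 2) : ℂ) / (a * τ + δ) ^ k := by
    push_cast
    rw [neg_add, cpow_add _ _ hne, cpow_neg _ (k : ℂ), cpow_natCast]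
    ring
  have e3 : (-(N * m ^ 2) / (4 * a * (a * τ + δ)) : ℂ) =
      -((N * m ^ 2 / (4 * a) : ℝ) : ℂ) / (a * τ + δ) := by
    push_cast; field_simp
  rw [Ot, if_neg hv, Cf, if_neg haz]
  simp only [Int.natAbs_natCast, Int.cast_natCast, XX]
  rw [e1, e3, Finset.sum_mul, Finset.sum_mul, Finset.sum_div]
  refine Finset.sum_congr rfl fun b _ => ?_
  simp only [Finset.sum_mul, Finset.sum_div]
  refine Finset.sum_congr rfl fun c _ => ?_
  rw [co, lt, e2]
  by_cases h0 : chi N a b c = 0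
  · simp [h0]
  obtain ⟨t, ht⟩ := C.sup N a b c hs h0
  have e4 : E (c * δ / N) * E (-(b ^ 2 * δ) / (4 * a * N)) =
      E (-((((b ^ 2 - 4 * a * c : ℤ) / N : ℤ) : ℂ) / (4 * a) * δ)) := by
    have ht' : (b : ℂ) ^ 2 - 4 * a * c = N * t := by exact_mod_cast ht
    rw [← J.add, ht, Int.mul_ediv_cancel_left _ (by omega)]
    congr 1
    field_simp
    linear_combination (-δ : ℂ) * ht'
  rw [← e4]
  ring

theorem St_eq (J : RowJH) (N k m a n : ℕ) (hN : 1 ≤ N) (ha : 1 ≤ a) (τ : ℂ) :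
    pw k n * cB N k * St N k a m n * E (n * τ / 4) =
      Sa N a m n * kap N a * GG k (N * m ^ 2 / (4 * a)) a n τ := by
  have ha0 : (0 : ℝ) < a := by exact_mod_cast ha
  have hN0 : (0 : ℝ) < N := by exact_mod_cast hN
  have hπ := Real.pi_pos
  have e1 : (N * m ^ 2 / (4 * a) * (n / (4 * a)) : ℝ) = N * n * m ^ 2 / (16 * a ^ 2) := by
    field_simp; ring
  have e2 : E (1 / 8) * E (-1 / 8) = 1 := by
    rw [← J.add, show (1 / 8 + -1 / 8 : ℂ) = ((0 : ℤ) : ℂ) by norm_num, J.int]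
  have e3 : (2 * π) ^ (k + 1 / 2 : ℝ) = (2 * π) ^ k * √(2 * π) := by
    rw [Real.rpow_add (by positivity), Real.rpow_natCast, Real.sqrt_eq_rpow]
  have e4 : √(2 * a / N : ℝ) * √(N / 2 : ℝ) * 2 = √(4 * a : ℝ) := by
    rw [← Real.sqrt_mul (by positivity), show (2 * a / N * (N / 2) : ℝ) = a by field_simp,
      Real.sqrt_mul (by norm_num), show (4 : ℝ) = 2 ^ 2 by norm_num,
      Real.sqrt_sq (by norm_num), mul_comm]
  have e5 : ((n : ℝ) / (4 * a)) ^ (k - 1 / 2 : ℝ) =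
      (n : ℝ) ^ (k - 1 / 2 : ℝ) * (√(2 * a / N : ℝ) * √(N / 2 : ℝ) * 2) / (4 ^ k * a ^ k) := by
    rw [Real.div_rpow (by positivity) (by positivity), Real.rpow_sub (by positivity : (0 : ℝ) < 4 * a),
      Real.rpow_natCast, ← Real.sqrt_eq_rpow, e4, mul_pow]
    field_simp
  have h0 : ((√(2 * a / N : ℝ) : ℝ) : ℂ) ≠ 0 := by
    exact_mod_cast (Real.sqrt_pos.2 (by positivity)).ne'
  have ha1 : (a : ℂ) ≠ 0 := by exact_mod_cast ha0.ne'
  rw [GG, e1, e5, KK, e3, kap, St, cB, pw]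
  generalize (n : ℝ) ^ (k - 1 / 2 : ℝ) = A
  generalize √(2 * a / N : ℝ) = B at h0 ⊢
  generalize √(N / 2 : ℝ) = D
  generalize √(2 * π) = F
  generalize Jb k _ = G
  generalize E (n * τ / 4) = X
  generalize E (1 / 8) = Y at e2 ⊢
  generalize E (-1 / 8) = Z at e2 ⊢
  push_cast
  field_simp
  linear_combination (-(A * D * F * G * X * Sa N a m n) : ℂ) * e2

theorem norm_Sa (J : RowJH) (C : RowCHI) (N a m n : ℕ) : ‖Sa N a m n‖ ≤ 2 * a := by
  refine (norm_sum_le _ _).trans ((Finset.sum_le_card_nsmul _ _ 1 fun b _ => ?_).trans ?_)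
  · split_ifs
    · exact norm_chiE J C N m a b _
    · simp
  · simp

theorem sum_chi (C : RowCHI) (N a b n : ℕ) (hN : 1 ≤ N) (hs : Squarefree N) (ha : 1 ≤ a) :
    ∑ c ∈ Finset.range N, (if (4 * a : ℤ) ∣ n - (b ^ 2 - 4 * a * c) / N then chi N a b c else 0) =
      if (4 * a : ℤ) ∣ b ^ 2 - N * n then chi N a b ((b ^ 2 - N * n) / (4 * a)) else 0 := by
  have hN0 : (0 : ℤ) < N := by omega
  have ha0 : (4 * a : ℤ) ≠ 0 := by omega
  have key : ∀ c : ℕ, (if (4 * a : ℤ) ∣ n - (b ^ 2 - 4 * a * c) / N then chi N a b c else 0) ≠ 0 →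
      ∃ r : ℤ, (b : ℤ) ^ 2 - N * n = 4 * a * (c + N * r) := fun c hc => by
    have h1 : (4 * a : ℤ) ∣ n - (b ^ 2 - 4 * a * c) / N := by
      by_contra h; exact hc (if_neg h)
    rw [if_pos h1] at hc
    obtain ⟨t, ht⟩ := C.sup N a b c hs hc
    rw [ht, Int.mul_ediv_cancel_left _ hN0.ne'] at h1
    obtain ⟨r, hr⟩ := h1
    exact ⟨-r, by linear_combination ht - N * hr⟩
  split_ifs with h
  · obtain ⟨c', hc'⟩ := h
    rw [hc', Int.mul_ediv_cancel_left _ ha0]
    have h1 : 0 ≤ c' % N := Int.emod_nonneg _ hN0.ne'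
    have h2 : c' % N < N := Int.emod_lt_of_pos _ hN0
    have h3 : (((c' % N).toNat : ℕ) : ℤ) = c' % N := Int.toNat_of_nonneg h1
    have h4 : c' % N + N * (c' / N) = c' := Int.emod_add_mul_ediv _ _
    rw [Finset.sum_eq_single_of_mem (c' % N).toNat (Finset.mem_range.2 (by omega))]
    · have h5 : (b : ℤ) ^ 2 - 4 * a * (c' % N) = N * (n + 4 * a * (c' / N)) := by
        linear_combination hc' - 4 * a * h4
      rw [h3, h5, Int.mul_ediv_cancel_left _ hN0.ne', if_pos ⟨-(c' / N), by ring⟩]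
      have := C.per N a b (c' % N) 0 0 (c' / N)
      rw [h4, mul_zero, add_zero, add_zero] at this
      exact this.symm
    · intro c hc hne
      by_contra h0
      obtain ⟨r, hr⟩ := key c h0
      have h5 : c' = c + N * r := mul_left_cancel₀ ha0 (hc'.symm.trans hr)
      have h6 : c' % N = c := by
        rw [h5, Int.add_mul_emod_self_left]
        exact Int.emod_eq_of_lt (by omega) (by have := Finset.mem_range.1 hc; omega)
      exact hne (by omega)
  · refine Finset.sum_eq_zero fun c _ => ?_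
    by_contra h0
    obtain ⟨r, hr⟩ := key c h0
    exact h ⟨_, hr⟩

theorem coef_eq (C : RowCHI) (N m μ a n : ℕ) (hN : Odd N) (hs : Squarefree N) (ha : 1 ≤ a)
    (g : ℂ) :
    ∑ b ∈ (Finset.range (2 * a)).filter fun b => b % 2 = μ, ∑ c ∈ Finset.range N,
      co N m a b c * (if (4 * a : ℤ) ∣ n - (b ^ 2 - 4 * a * c) / N then g else 0) =
      if n % 2 = μ then Sa N a m n * kap N a * g else 0 := by
  have h1 : ∀ b : ℕ, ∑ c ∈ Finset.range N,
      co N m a b c * (if (4 * a : ℤ) ∣ n - (b ^ 2 - 4 * a * c) / N then g else 0) =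
      (if (4 * a : ℤ) ∣ b ^ 2 - N * n then
        (chi N a b ((b ^ 2 - N * n) / (4 * a)) : ℂ) * E (m * b / (2 * a)) else 0) * kap N a * g :=
    fun b => by
      have h := congrArg (fun z : ℤ => (z : ℂ) * E (m * b / (2 * a)) * kap N a * g)
        (sum_chi C N a b n hN.pos hs ha)
      simp only [Int.cast_sum, Int.cast_ite, Int.cast_zero, Finset.sum_mul, ite_mul, zero_mul] at h
      simp only [co, mul_ite, mul_zero, ite_mul, zero_mul]
      exact h
  have h2 : ∀ b : ℕ, (4 * a : ℤ) ∣ b ^ 2 - N * n → b % 2 = n % 2 := fun b hb => by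
    have h3 : Even ((b : ℤ) ^ 2 - N * n) :=
      even_iff_two_dvd.2 ((Dvd.intro (2 * a : ℤ) (by ring) : (2 : ℤ) ∣ 4 * a).trans hb)
    have h4 : ¬ Even (N : ℤ) := by
      rw [Int.even_coe_nat]; exact Nat.not_even_iff_odd.2 hN
    rw [Int.even_sub, Int.even_mul, Int.even_pow' two_ne_zero, Int.even_coe_nat, Int.even_coe_nat,
      Int.even_coe_nat, Nat.even_iff, Nat.even_iff (n := n)] at h3
    rw [Int.even_coe_nat] at h4
    simp only [h4, false_or] at h3
    omega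
  simp only [h1]
  rw [← Finset.sum_mul, ← Finset.sum_mul, Finset.sum_filter]
  split_ifs with h
  · rw [Sa]
    congr 2
    refine Finset.sum_congr rfl fun b _ => ?_
    split_ifs with h3 h4 h4
    · rfl
    · rfl
    · exact absurd ((h2 b h4).trans h) h3
    · rfl
  · rw [Finset.sum_eq_zero, zero_mul, zero_mul]
    intro b _
    split_ifs with h3 h4
    · exact absurd ((h2 b h4).symm.trans h3) h
    · rfl
    · rfl

theorem rowRA : OfRA := by
  intro J C L N k m μ τ hA _ _ hτ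
  obtain ⟨hk, hs, hN4⟩ := hA
  have hodd : Odd N := Nat.odd_iff.2 (by omega)
  have hN : 1 ≤ N := hodd.pos
  have hN0 : (0 : ℝ) < N := by exact_mod_cast hN
  have hk' : (6 : ℝ) ≤ k := by exact_mod_cast hk
  have hπ := Real.pi_pos
  have hr : Real.exp (-(π * τ.im / 4)) < 1 := Real.exp_lt_one_iff.2 (by
    have : 0 < π * τ.im / 4 := by positivity
    linarith)
  have hr0 := Real.exp_nonneg (-(π * τ.im / 4))
  have hr1 : 0 ≤ (1 - Real.exp (-(π * τ.im / 4)))⁻¹ := inv_nonneg.2 (by linarith)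
  obtain ⟨C₁, hC₁⟩ : ∃ C₁ : ℝ, C₁ = 2 * N * N * (τ.im ^ (-(k + 1 / 2 : ℝ)) * (2 + 4 * τ.im)) :=
    ⟨_, rfl⟩
  obtain ⟨C₂, hC₂⟩ : ∃ C₂ : ℝ, C₂ = 2 * N * (Real.exp (π * (N * m ^ 2) / τ.im) *
    (2 * π * (2 / τ.im) ^ (k + 1 / 2 - 1 : ℝ))) := ⟨_, rfl⟩
  have h1 : 0 ≤ C₁ := by rw [hC₁]; positivity
  have h2 : 0 ≤ C₂ := by rw [hC₂]; positivity
  refine ⟨C₁ + C₂ * (1 - Real.exp (-(π * τ.im / 4)))⁻¹, fun a ha => ?_⟩
  have ha1 : (1 : ℝ) ≤ a := by exact_mod_cast ha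
  have ha0 : (0 : ℝ) < a := by linarith
  have hw : (0 : ℝ) ≤ N * m ^ 2 / (4 * a) := by positivity
  have him : ((a : ℂ) * τ).im = a * τ.im := by simp
  obtain ⟨s1, s2⟩ := L.abs (k + 1 / 2) (a * τ) (by linarith) (by rw [him]; positivity)
  rw [him] at s2
  have b1 : ∀ δ : ℤ, ‖Ot N k m μ (a, δ) τ‖ ≤
      2 * a * N * N * ‖(a : ℂ) * τ + δ‖ ^ (-(k + 1 / 2 : ℝ)) := fun δ => by
    rw [Ot_eq J C N k m μ a hN hs ha τ hτ]
    refine (norm_sum_le _ _).trans ((Finset.sum_le_card_nsmul _ _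
      (N * (N * ‖(a : ℂ) * τ + δ‖ ^ (-(k + 1 / 2 : ℝ)))) fun b _ => ?_).trans ?_)
    · refine (norm_sum_le _ _).trans ((Finset.sum_le_card_nsmul _ _
        (N * ‖(a : ℂ) * τ + δ‖ ^ (-(k + 1 / 2 : ℝ))) fun c _ => ?_).trans ?_)
      · rw [norm_mul]
        exact mul_le_mul (norm_co J C N m a b c hN ha) (norm_lt J k _ hw a ha _ τ hτ δ)
          (norm_nonneg _) hN0.le
      · rw [Finset.card_range, nsmul_eq_mul]
    · have h3 : (((Finset.range (2 * a)).filter fun b => b % 2 = μ).card : ℝ) ≤ 2 * a := by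
        have := (Finset.card_filter_le (Finset.range (2 * a)) fun b => b % 2 = μ)
        rw [Finset.card_range] at this
        exact_mod_cast this
      rw [nsmul_eq_mul]
      refine (mul_le_mul_of_nonneg_right h3 (by positivity)).trans (le_of_eq (by ring))
  have s3 := s1.mul_left (2 * a * N * N : ℝ)
  have s4 : Summable fun δ : ℤ => ‖Ot N k m μ (a, δ) τ‖ :=
    Summable.of_nonneg_of_le (fun _ => norm_nonneg _) b1 s3
  have b2 : ∀ n : ℕ, ‖GG k (N * m ^ 2 / (4 * a)) a n τ‖ * (2 * a * N) ≤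
      C₂ / a ^ 2 * Real.exp (-(π * τ.im / 4)) ^ n := fun n => by
    have h3 := GG_bound J L k (by omega) _ hw a ha τ hτ n
    have h4 : Real.exp (4 * π * (N * m ^ 2 / (4 * a)) / (a * τ.im)) ≤
        Real.exp (π * (N * m ^ 2) / τ.im) := by
      refine Real.exp_le_exp.2 ?_
      have e : 4 * π * (N * m ^ 2 / (4 * a)) / (a * τ.im) = π * (N * m ^ 2) / τ.im / a ^ 2 := by
        field_simp
      rw [e]
      exact div_le_self (by positivity) (one_le_pow₀ ha1)
    have h5 : (2 / (a * τ.im)) ^ (k + 1 / 2 - 1 : ℝ) ≤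
        (2 / τ.im) ^ (k + 1 / 2 - 1 : ℝ) / a ^ 3 := by
      rw [mul_comm (a : ℝ), ← div_div, Real.div_rpow (by positivity) ha0.le]
      refine div_le_div_of_nonneg_left (by positivity) (by positivity) ?_
      rw [← Real.rpow_natCast]
      exact Real.rpow_le_rpow_of_exponent_le ha1 (by push_cast; linarith)
    calc _ ≤ Real.exp (π * (N * m ^ 2) / τ.im) * (2 * π * ((2 / τ.im) ^ (k + 1 / 2 - 1 : ℝ) / a ^ 3) *
          Real.exp (-(π * τ.im / 4)) ^ n) * (2 * a * N) := by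
          refine mul_le_mul_of_nonneg_right (h3.trans ?_) (by positivity)
          gcongr
      _ = _ := by rw [hC₂]; field_simp
  have b3 : ∀ n : ℕ, ‖pw k n * cB N k * St N k a m n * E (n * τ / 4)‖ ≤
      C₂ / a ^ 2 * Real.exp (-(π * τ.im / 4)) ^ n := fun n => by
    rw [St_eq J N k m a n hN ha, norm_mul, norm_mul, mul_comm]
    exact (mul_le_mul_of_nonneg_left (mul_le_mul (norm_Sa J C N a m n) (norm_kap J N a hN ha)
      (norm_nonneg _) (by positivity)) (norm_nonneg _)).trans (b2 n)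
  have s5 := (hasSum_geometric_of_lt_one hr0 hr).mul_left (C₂ / a ^ 2)
  have s6 : Summable fun n : ℕ => ‖pw k n * cB N k * St N k a m n * E (n * τ / 4)‖ :=
    Summable.of_nonneg_of_le (fun _ => norm_nonneg _) b3 s5.summable
  refine ⟨s4, ?_, s6, ?_, ?_⟩
  · refine (s4.tsum_le_tsum b1 s3).trans ?_
    rw [tsum_mul_left]
    refine (mul_le_mul_of_nonneg_left s2 (by positivity)).trans ?_
    have h3 : (a : ℝ) ^ (-(k + 1 / 2 : ℝ)) ≤ ((a : ℝ) ^ 4)⁻¹ := by
      rw [← Real.rpow_natCast, ← Real.rpow_neg ha0.le]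
      exact Real.rpow_le_rpow_of_exponent_le ha1 (by push_cast; linarith)
    have h4 : 2 + 4 * (a * τ.im) ≤ a * (2 + 4 * τ.im) := by linarith
    rw [Real.mul_rpow ha0.le hτ.le]
    calc _ ≤ 2 * a * N * N * (((a : ℝ) ^ 4)⁻¹ * τ.im ^ (-(k + 1 / 2 : ℝ)) *
          (a * (2 + 4 * τ.im))) := by gcongr
      _ = C₁ / a ^ 2 := by rw [hC₁]; field_simp
      _ ≤ _ := div_le_div_of_nonneg_right (le_add_of_nonneg_right (by positivity)) (by positivity)
  · refine (s6.tsum_le_tsum b3 s5.summable).trans ?_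
    rw [s5.tsum_eq, div_mul_eq_mul_div]
    exact div_le_div_of_nonneg_right (le_add_of_nonneg_left h1) (by positivity)
  · have s7 : ∀ t : ℤ, Summable (lt k (N * m ^ 2 / (4 * a)) a t τ) := fun t =>
      Summable.of_norm_bounded s1 (norm_lt J k _ hw a ha t τ hτ)
    have s8 : ∀ t : ℤ, Summable fun n : ℕ =>
        if (4 * a : ℤ) ∣ n - t then GG k (N * m ^ 2 / (4 * a)) a n τ else 0 := fun t => by
      refine Summable.of_norm_bounded s5.summable fun n => ?_
      split_ifs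
      · refine le_trans (le_mul_of_one_le_right (norm_nonneg _) ?_) (b2 n)
        have : (1 : ℝ) ≤ N := by exact_mod_cast hN
        nlinarith
      · rw [norm_zero]; positivity
    have s9 : HasSum (fun δ : ℤ => ∑ b ∈ (Finset.range (2 * a)).filter fun b => b % 2 = μ,
        ∑ c ∈ Finset.range N, co N m a b c *
          lt k (N * m ^ 2 / (4 * a)) a ((b ^ 2 - 4 * a * c) / N) τ δ) _ :=
      hasSum_sum fun b _ => hasSum_sum fun c _ => (s7 _).hasSum.mul_left _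
    have s10 : HasSum (fun n : ℕ => ∑ b ∈ (Finset.range (2 * a)).filter fun b => b % 2 = μ,
        ∑ c ∈ Finset.range N, co N m a b c * (if (4 * a : ℤ) ∣ n - (b ^ 2 - 4 * a * c) / N then
          GG k (N * m ^ 2 / (4 * a)) a n τ else 0)) _ :=
      hasSum_sum fun b _ => hasSum_sum fun c _ => (s8 _).hasSum.mul_left _
    simp only [coef_eq C N m μ a _ hodd hs ha] at s10
    rw [tsum_congr (Ot_eq J C N k m μ a hN hs ha τ hτ), s9.tsum_eq, ser]
    refine Eq.trans ?_ (s10.tsum_eq.symm.trans (tsum_congr fun n => ?_))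
    · refine Finset.sum_congr rfl fun b _ => Finset.sum_congr rfl fun c _ => ?_
      rw [← lipB J L k (by omega) _ hw a ha _ τ hτ]
      rfl
    · rw [par, Nat.cast_ofNat]
      split_ifs
      · exact (St_eq J N k m a n hN ha τ).symm
      · rw [zero_mul]

end

end Pool.Agent.MP_5f72fe_nt.H41
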