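import Pool.Agent.MP_5f72fe_nt.H25.SpecN

/-! Row IDL1: ideals of given norm in an imaginary quadratic ring of integers. -/

namespace Pool.Agent.MP_5f72fe_nt.H41N

open NumberField Pool.Agent.MP_5f72fe_nt.H25N

section
variable {O : Type} [CommRing O]

/-- the ideal with basis `e a`, `e (k + w)` -/
def JJ (w : O) (e a k : ℤ) : Ideal O := Ideal.span {((e * a : ℤ) : O), (e : O) * (k + w)}

theorem mem_JJ {w : O} {c : ℤ} (hw : w * w = w - c) (hs : ∀ z : O, ∃ x y : ℤ, z = x + y * w)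
    {e a k : ℤ} (h : a ∣ k * k + k + c) (z : O) :
    z ∈ JJ w e a k ↔ ∃ u v : ℤ, z = u * ((e * a : ℤ) : O) + v * ((e : O) * (k + w)) := by
  rw [JJ, Ideal.mem_span_pair]
  constructor
  · rintro ⟨r1, r2, rfl⟩
    obtain ⟨p1, q1, rfl⟩ := hs r1
    obtain ⟨p2, q2, rfl⟩ := hs r2
    obtain ⟨t, ht⟩ := h
    have ht' : (k : O) * k + k + c = a * t := by exact_mod_cast congrArg (Int.cast : ℤ → O) ht
    refine ⟨p1 - q1 * k - q2 * t, q1 * a + p2 + q2 * (k + 1), ?_⟩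
    push_cast
    linear_combination (q2 * e : O) * hw - (q2 * e : O) * ht'
  · rintro ⟨u, v, rfl⟩
    exact ⟨u, v, rfl⟩

theorem hnf {w : O} {c : ℤ} (hw : w * w = w - c) (hs : ∀ z : O, ∃ x y : ℤ, z = x + y * w)
    (I : Ideal O) {m : ℤ} (hm : m ≠ 0) (hI : (m : O) ∈ I) :
    ∃ e a k : ℕ, 0 < e ∧ k < a ∧ (a : ℤ) ∣ k * k + k + c ∧ I = JJ w e a k := by
  let P : Ideal ℤ :=
    { carrier := {y | ∃ x : ℤ, (x : O) + y * w ∈ I}
      add_mem' := by
        rintro y y' ⟨x, hx⟩ ⟨x', hx'⟩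
        refine ⟨x + x', ?_⟩
        convert I.add_mem hx hx' using 1
        push_cast; ring
      zero_mem' := ⟨0, by simp⟩
      smul_mem' := by
        rintro r y ⟨x, hx⟩
        refine ⟨r * x, ?_⟩
        convert I.mul_mem_left r hx using 1
        simp only [smul_eq_mul]
        push_cast; ring }
  obtain ⟨e, he⟩ : ∃ e : ℕ, ∀ y : ℤ, (∃ x : ℤ, (x : O) + y * w ∈ I) ↔ (e : ℤ) ∣ y :=
    ⟨Ideal.absNorm P, fun y => by
      rw [← Ideal.mem_span_singleton, Int.ideal_span_absNorm_eq_self]; rfl⟩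
  obtain ⟨A, hA⟩ : ∃ A : ℕ, ∀ x : ℤ, (x : O) ∈ I ↔ (A : ℤ) ∣ x :=
    ⟨Ideal.absNorm (I.comap (Int.castRingHom O)), fun x => by
      rw [← Ideal.mem_span_singleton, Int.ideal_span_absNorm_eq_self]; rfl⟩
  have hA0 : (A : ℤ) ≠ 0 := fun h => hm (by simpa [h] using (hA m).1 hI)
  have hAI : ((A : ℤ) : O) ∈ I := (hA A).2 dvd_rfl
  obtain ⟨a, ha⟩ : e ∣ A := Int.natCast_dvd_natCast.1
    ((he A).1 ⟨0, by simpa using I.mul_mem_right w hAI⟩)
  have ha' : (A : ℤ) = e * a := by exact_mod_cast ha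
  have he0 : (e : ℤ) ≠ 0 := fun h => hA0 (by rw [ha', h, zero_mul])
  have ha0 : (a : ℤ) ≠ 0 := fun h => hA0 (by rw [ha', h, mul_zero])
  obtain ⟨B, hB⟩ := (he e).2 dvd_rfl
  obtain ⟨k0, hk0⟩ : (e : ℤ) ∣ B := by
    have : (e : ℤ) ∣ B + e := (he _).1 ⟨-(e * c), by
      convert I.mul_mem_left w hB using 1
      push_cast
      linear_combination (-(e : O)) * hw⟩
    exact (dvd_add_left dvd_rfl).1 this
  obtain ⟨k, hk⟩ := Int.eq_ofNat_of_zero_le (Int.emod_nonneg k0 ha0)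
  have hlt : (k : ℤ) < a := hk ▸ Int.emod_lt_of_pos k0 (by omega)
  have hkI : ((e : ℤ) : O) * ((k : ℤ) + w) ∈ I := by
    have h1 : k0 = a * (k0 / a) + k := by rw [← hk]; exact (Int.mul_ediv_add_emod k0 a).symm
    have h2 : (B : O) = ((e * (a * (k0 / a) + k) : ℤ) : O) := by rw [← h1, hk0]
    convert I.sub_mem hB (I.mul_mem_left ((k0 / a : ℤ) : O) hAI) using 1
    rw [h2, ha']
    push_cast; ring
  have hd : (a : ℤ) ∣ k * k + k + c := by
    have : (A : ℤ) ∣ e * (k * k + k + c) := (hA _).1 (by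
      convert I.mul_mem_left (((k : ℤ) : O) + 1 - w) hkI using 1
      push_cast
      linear_combination (e : O) * hw)
    rw [ha'] at this
    exact (mul_dvd_mul_iff_left he0).1 this
  refine ⟨e, a, k, by omega, by omega, hd, le_antisymm (fun z hz => ?_) ?_⟩
  · obtain ⟨x, y, rfl⟩ := hs z
    obtain ⟨v, rfl⟩ := (he y).1 ⟨x, hz⟩
    obtain ⟨u, hu⟩ := (hA (x - v * e * k)).1 (by
      convert I.sub_mem hz (I.mul_mem_left (v : O) hkI) using 1
      push_cast; ring)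
    refine (mem_JJ hw hs hd _).2 ⟨u, v, ?_⟩
    have : (x : O) = ((e * a * u + v * e * k : ℤ) : O) := by
      rw [← ha', ← hu]; congr 1; ring
    rw [this]
    push_cast; ring
  · rw [JJ, Ideal.span_le]
    rintro z (rfl | rfl)
    · rw [← ha']; exact hAI
    · exact hkI

end

theorem rowIDL1 : OfIDL1 := by
  intro hQ K _ _ n s τ q m hm
  obtain ⟨c, hc⟩ : ∃ c : ℤ, (n : ℤ) + 1 = 4 * c := ⟨(n + 1) / 4, by have := q.md; omega⟩
  obtain ⟨w, hw0⟩ : ∃ w : 𝓞 K, (w : K) = (1 + s) / 2 :=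
    ⟨⟨(1 + s) / 2, (hQ.int K n s τ q _).2 ⟨0, 1, by simp⟩⟩, rfl⟩
  have hc' : (n : K) + 1 = 4 * c := by exact_mod_cast hc
  have hw : w * w = w - c := by
    apply RingOfIntegers.ext
    simp only [map_mul, map_sub, map_intCast, RingOfIntegers.coe_eq_algebraMap] at hw0 ⊢
    rw [hw0]
    linear_combination (1 / 4 : K) * q.sq - (1 / 4 : K) * hc'
  have hs : ∀ z : 𝓞 K, ∃ x y : ℤ, z = x + y * w := fun z => by
    obtain ⟨x, y, h⟩ := (hQ.int K n s τ q z).1 (RingOfIntegers.isIntegral_coe z)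
    refine ⟨x, y, RingOfIntegers.ext ?_⟩
    rw [h, ← hw0]; simp
  have ind := (hQ.rep K n s τ q).2
  have uq : ∀ x y x' y' : ℤ, (x : 𝓞 K) + y * w = x' + y' * w → x = x' ∧ y = y' := by
    intro x y x' y' h
    have h1 : (x : K) + y * ((1 + s) / 2) = x' + y' * ((1 + s) / 2) := by
      rw [← hw0]
      simpa using congrArg (algebraMap (𝓞 K) K) h
    obtain ⟨h2, h3⟩ := ind (x - x' + (y - y') / 2) ((y - y') / 2) (by
      push_cast; linear_combination h1)
    have h4 : (y : ℚ) = y' := by linarith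
    have h5 : (x : ℚ) = x' := by linarith
    exact ⟨by exact_mod_cast h5, by exact_mod_cast h4⟩
  have sc : ∀ x y : ℤ, (x : K) * s = y * s → x = y := fun x y h => by
    have := (ind 0 (x - y) (by push_cast; linear_combination h)).2
    exact_mod_cast sub_eq_zero.1 this
  have τw : τ w = w - s := by
    rw [hw0]
    simp only [map_div₀, map_add, map_one, q.conj, map_ofNat]
    ring
  have nrm : ∀ e a k : ℕ, 0 < e → 0 < a → (a : ℤ) ∣ k * k + k + c →
      Ideal.absNorm (JJ w e a k) = e ^ 2 * a := by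
    intro e a k he ha hd
    have m1 : (((e : ℤ) * a : ℤ) : 𝓞 K) ∈ JJ w e a k := Ideal.subset_span (by simp)
    have m2 : ((e : ℤ) : 𝓞 K) * ((k : ℤ) + w) ∈ JJ w e a k := Ideal.subset_span (by simp)
    obtain ⟨α, hα, β, hβ, hD, hg⟩ := hQ.basis K n s τ q (JJ w e a k) fun h => by
      rw [h, Ideal.mem_bot] at m1
      have : (e : ℤ) * a = 0 := by exact_mod_cast m1
      have : 0 < (e : ℤ) * a := by positivity
      omega
    set N := Ideal.absNorm (JJ w e a k)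
    obtain ⟨u1, v1, h1⟩ := (mem_JJ hw hs hd α).1 hα
    obtain ⟨u2, v2, h2⟩ := (mem_JJ hw hs hd β).1 hβ
    obtain ⟨x1, y1, h3⟩ := hg _ m1
    obtain ⟨x2, y2, h4⟩ := hg _ m2
    have g1 : (α : K) = u1 * (e * a) + v1 * (e * (k + w)) := by
      simpa using congrArg (algebraMap (𝓞 K) K) h1
    have g2 : (β : K) = u2 * (e * a) + v2 * (e * (k + w)) := by
      simpa using congrArg (algebraMap (𝓞 K) K) h2
    have g3 : (e : K) * a = x1 * α + y1 * β := by
      simpa using congrArg (algebraMap (𝓞 K) K) h3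
    have g4 : (e : K) * (k + w) = x2 * α + y2 * β := by
      simpa using congrArg (algebraMap (𝓞 K) K) h4
    have t1 := congrArg τ g1
    have t2 := congrArg τ g2
    have t3 := congrArg τ g3
    have t4 := congrArg τ g4
    simp only [map_add, map_mul, map_intCast, map_natCast, τw] at t1 t2 t3 t4
    have d1 : (N : ℤ) = (e ^ 2 * a : ℕ) * (u2 * v1 - u1 * v2) := sc _ _ (by
      push_cast
      rw [← hD, t1, t2, g1, g2]; ring)
    have d2 : ((e ^ 2 * a : ℕ) : ℤ) = N * (x2 * y1 - x1 * y2) := sc _ _ (by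
      push_cast
      have : (e : K) ^ 2 * a * s = (e * (k + w)) * (e * a) - (e * (k + (w - s))) * (e * a) := by
        ring
      rw [this]
      linear_combination (e * a : K) * g4 + (x2 * α + y2 * β : K) * t3 - (e * a : K) * t4 -
        (x2 * τ α + y2 * τ β) * g3 + ((x2 : K) * y1 - x1 * y2) * hD)
    exact Nat.dvd_antisymm (Int.natCast_dvd_natCast.1 ⟨_, d2⟩) (Int.natCast_dvd_natCast.1 ⟨_, d1⟩)
  have root : ∀ a b : ℕ, 4 * a ∣ b ^ 2 + n →
      b = 2 * (b / 2) + 1 ∧ (a : ℤ) ∣ (b / 2 : ℕ) * (b / 2 : ℕ) + (b / 2 : ℕ) + c := by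
    intro a b ⟨t, ht⟩
    have hb : b = 2 * (b / 2) + 1 := by
      rcases Nat.even_or_odd' b with ⟨j, rfl | rfl⟩
      · have := q.md
        have h4 : (2 * j) ^ 2 = 4 * (j * j) := by ring
        rw [mul_assoc] at ht
        omega
      · omega
    refine ⟨hb, t, ?_⟩
    generalize b / 2 = k at hb
    subst hb
    have : ((2 * k + 1 : ℤ)) ^ 2 + n = 4 * a * t := by exact_mod_cast ht
    nlinarith
  let S := (m.divisors.filter fun e => e ^ 2 ∣ m).sigma fun e =>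
    (Finset.range (2 * (m / e ^ 2))).filter fun b => 4 * (m / e ^ 2) ∣ b ^ 2 + n
  have hS : ∀ p ∈ S, 0 < p.1 ∧ p.1 ^ 2 * (m / p.1 ^ 2) = m ∧ p.2 / 2 < m / p.1 ^ 2 ∧
      4 * (m / p.1 ^ 2) ∣ p.2 ^ 2 + n := by
    intro p hp
    simp only [S, Finset.mem_sigma, Finset.mem_filter, Finset.mem_range] at hp
    exact ⟨Nat.pos_of_mem_divisors hp.1.1, Nat.mul_div_cancel' hp.1.2, by omega, hp.2.2⟩
  let f : S → {I : Ideal (𝓞 K) // Ideal.absNorm I = m} := fun p =>
    ⟨JJ w p.1.1 (m / p.1.1 ^ 2 : ℕ) (p.1.2 / 2 : ℕ), by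
      obtain ⟨h1, h2, h3, h4⟩ := hS p.1 p.2
      rw [nrm _ _ _ h1 (by omega) (root _ _ h4).2, h2]⟩
  have key : ∀ (e a k e' a' k' : ℕ), (a : ℤ) ∣ k * k + k + c → JJ w e a k = JJ w e' a' k' →
      ∃ u v : ℤ, (e' * k' : ℤ) = u * (e * a) + v * (e * k) ∧ (e' : ℤ) = v * e := by
    intro e a k e' a' k' hd h
    have m2 : ((e' : ℤ) : 𝓞 K) * ((k' : ℤ) + w) ∈ JJ w e' a' k' := Ideal.subset_span (by simp)
    rw [← h] at m2
    obtain ⟨u, v, huv⟩ := (mem_JJ hw hs hd _).1 m2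
    exact ⟨u, v, uq _ _ _ _ (by push_cast at huv ⊢; linear_combination huv)⟩
  have hf : Function.Bijective f := by
    constructor
    · rintro ⟨⟨e, b⟩, hp⟩ ⟨⟨e', b'⟩, hp'⟩ h
      have h' := congrArg Subtype.val h
      obtain ⟨h1, -, h3, h4⟩ := hS _ hp
      obtain ⟨h1', -, h3', h4'⟩ := hS _ hp'
      dsimp only [f] at h' h1 h3 h4 h1' h3' h4'
      obtain ⟨u, v, e1, e2⟩ := key _ _ _ _ _ _ (root _ _ h4).2 h'
      obtain ⟨-, v', -, e2'⟩ := key _ _ _ _ _ _ (root _ _ h4').2 h'.symm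
      obtain rfl : e = e' := Nat.dvd_antisymm (Int.natCast_dvd_natCast.1 (Dvd.intro_left _ e2.symm))
        (Int.natCast_dvd_natCast.1 (Dvd.intro_left _ e2'.symm))
      have he : (e : ℤ) ≠ 0 := by omega
      obtain rfl : v = 1 := mul_right_cancel₀ he (by rw [← e2, one_mul])
      have e3 : ((m / e ^ 2 : ℕ) : ℤ) ∣ (b' / 2 : ℕ) - (b / 2 : ℕ) :=
        ⟨u, mul_left_cancel₀ he (by linear_combination e1)⟩
      have e4 := Int.eq_zero_of_abs_lt_dvd e3 (abs_lt.2 ⟨by omega, by omega⟩)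
      have e5 := (root _ _ h4).1
      have e6 := (root _ _ h4').1
      obtain rfl : b = b' := by omega
      rfl
    · rintro ⟨I, hI⟩
      obtain ⟨e, a, k, he, hk, hd, rfl⟩ := hnf hw hs I (m := m) (by omega)
        (by rw [← hI]; exact_mod_cast Ideal.absNorm_mem I)
      have h1 := nrm e a k he (by omega) hd
      rw [hI] at h1
      have h2 : m / e ^ 2 = a := by rw [h1, Nat.mul_div_cancel_left _ (by positivity)]
      have h3 : (2 * k + 1) / 2 = k := by omega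
      refine ⟨⟨⟨e, 2 * k + 1⟩, ?_⟩, Subtype.ext ?_⟩
      · simp only [S, Finset.mem_sigma, Finset.mem_filter, Finset.mem_range, Nat.mem_divisors, h2]
        refine ⟨⟨⟨⟨e * a, by rw [h1]; ring⟩, by omega⟩, a, h1⟩, by omega, ?_⟩
        obtain ⟨t, ht⟩ := hd
        refine Int.natCast_dvd_natCast.1 ⟨t, ?_⟩
        push_cast
        linear_combination 4 * ht + hc
      · simp only [f, h2, h3]
  rw [← Nat.card_eq_of_bijective f hf, Nat.card_eq_fintype_card, Fintype.card_coe,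
    Finset.card_sigma]
  rfl

end Pool.Agent.MP_5f72fe_nt.H41N
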