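import Pool.Agent.MP_5f72fe_nt.H3.SpecC

/-! The terms of the Poincare series with fixed `a > 0`: analytic lemmas. -/

namespace Pool.Agent.MP_5f72fe_nt.H41

open Pool.Agent.MP_5f72fe_nt.H3 Complex
open scoped Real

noncomputable section

theorem E_nat (n : ℕ) (x : ℂ) : E (n * x) = E x ^ n := by
  unfold E
  rw [← Complex.exp_nat_mul]
  congr 1
  ring

theorem E_quarter (J : RowJH) : E (-1 / 4) = -I := by
  have h1 := J.add (1 / 4) (-1 / 4)
  have h2 := J.int 0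
  rw [J.quarter.1, show (1 / 4 + -1 / 4 : ℂ) = ((0 : ℤ) : ℂ) by norm_num, h2] at h1
  linear_combination (I) * h1 + E (-1 / 4) * I_sq

/-- The Lipschitz formula on one residue class. -/
theorem lipA (L : RowLIP) (a : ℕ) (ha : 1 ≤ a) (t : ℤ) (s : ℝ) (hs : 2 ≤ s) (τ : ℂ)
    (hτ : 0 < τ.im) :
    HasSum (fun n : ℕ => if (4 * a : ℤ) ∣ n - t then
        cL s * (((n : ℝ) / (4 * a)) ^ (s - 1) : ℝ) * E (n * τ / 4) else 0)
      (∑' l : ℤ, E (-(t / (4 * a) * l)) * (a * τ + l) ^ (-s : ℂ)) := by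
  have ha0 : (0 : ℝ) < a := by exact_mod_cast ha
  have ha1 : (a : ℂ) ≠ 0 := by exact_mod_cast ha0.ne'
  have haz : (0 : ℤ) < a := by exact_mod_cast ha
  have h := L.sum s (t / (4 * a)) (a * τ) hs (by simpa using mul_pos ha0 hτ)
  have e0 : ((t / (4 * a) : ℝ) : ℂ) = t / (4 * a) := by push_cast; rfl
  rw [e0] at h
  let F : ℤ → ℂ := fun u => if 0 < u ∧ (4 * a : ℤ) ∣ u - t then
    cL s * (((u : ℝ) / (4 * a)) ^ (s - 1) : ℝ) * E (u * τ / 4) else 0
  have inj : Function.Injective (fun r : ℤ => 4 * a * r + t) := fun x y hxy => by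
    have : (4 * a : ℤ) * x = 4 * a * y := by simpa using hxy
    exact mul_left_cancel₀ (by omega) this
  have h1 : HasSum F (∑' l : ℤ, E (-(t / (4 * a) * l)) * (a * τ + l) ^ (-s : ℂ)) := by
    refine (inj.hasSum_iff (f := F) fun u hu => ?_).1 ?_
    · refine if_neg fun h2 => hu ?_
      obtain ⟨r, hr⟩ := h2.2
      exact ⟨r, by simp only; omega⟩
    · have e : F ∘ (fun r : ℤ => 4 * a * r + t) = fun r : ℤ => if 0 < (r : ℝ) + t / (4 * a) then
          cL s * (((r : ℝ) + t / (4 * a)) ^ (s - 1) : ℝ) * E ((r + t / (4 * a)) * (a * τ))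
          else 0 := by
        funext r
        have e1 : (((4 * a * r + t : ℤ) : ℝ) / (4 * a)) = r + t / (4 * a) := by
          push_cast; field_simp
        have e2 : ((4 * a * r + t : ℤ) : ℂ) * τ / 4 = (r + t / (4 * a)) * (a * τ) := by
          push_cast; field_simp
        have e3 : (0 < 4 * a * r + t ∧ (4 * a : ℤ) ∣ 4 * a * r + t - t) ↔
            0 < (r : ℝ) + t / (4 * a) := by
          rw [← e1, add_sub_cancel_right, div_pos_iff_of_pos_right (by positivity), Int.cast_pos]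
          exact and_iff_left (dvd_mul_right _ _)
        simp only [F, Function.comp, e1, e2, e3]
      rw [e]; exact h
  have h2 := (Nat.cast_injective (R := ℤ).hasSum_iff (f := F) fun u hu => ?_).2 h1
  · have e : F ∘ (Nat.cast : ℕ → ℤ) = fun n : ℕ => if (4 * a : ℤ) ∣ n - t then
        cL s * (((n : ℝ) / (4 * a)) ^ (s - 1) : ℝ) * E (n * τ / 4) else 0 := by
      funext n
      simp only [F, Function.comp, Int.cast_natCast]
      rcases Nat.eq_zero_or_pos n with rfl | hn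
      · have : s - 1 ≠ 0 := by linarith
        simp [Real.zero_rpow this]
      · have : (0 : ℤ) < n := by exact_mod_cast hn
        simp only [this, true_and]
    rw [← e]; exact h2
  · refine if_neg fun h2 => hu ⟨u.toNat, by omega⟩

/-- coefficients of the exponential series -/
def cI (w : ℝ) (i : ℕ) : ℂ := (-2 * π * I * w) ^ i / (i.factorial : ℂ)

theorem norm_cI (w : ℝ) (hw : 0 ≤ w) (i : ℕ) : ‖cI w i‖ = (2 * π * w) ^ i / i.factorial := by
  have := Real.pi_pos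
  simp [cI, abs_of_nonneg hw, abs_of_pos this]

/-- the constant -/
def KK (k : ℕ) : ℂ := ((2 * π) ^ (k + 1 / 2 : ℝ) : ℝ) * ((-I) ^ k * E (-1 / 8))

theorem gt_eq (J : RowJH) (k i : ℕ) (hk : 1 ≤ k) (w x : ℝ) (hx : 0 ≤ x) (e : ℂ) :
    cI w i * (cL (k + 1 / 2 + i) * (x ^ (k + 1 / 2 + i - 1 : ℝ) : ℝ) * e) =
      KK k * (x ^ (k - 1 / 2 : ℝ) : ℝ) * e *
        (((-(4 * π ^ 2 * (w * x))) ^ i / (i.factorial * Real.Gamma (k + 1 / 2 + i)) : ℝ) : ℂ) := by
  have hk' : (1 : ℝ) ≤ k := by exact_mod_cast hk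
  have hi : (0 : ℝ) ≤ i := Nat.cast_nonneg i
  have e1 : x ^ (k + 1 / 2 + i - 1 : ℝ) = x ^ (k - 1 / 2 : ℝ) * x ^ i := by
    rw [← Real.rpow_natCast, ← Real.rpow_add' hx (by linarith)]
    congr 1; ring
  have e2 : (2 * π) ^ (k + 1 / 2 + i : ℝ) = (2 * π) ^ (k + 1 / 2 : ℝ) * (2 * π) ^ i :=
    Real.rpow_add_natCast (by have := Real.pi_pos; positivity) _ _
  have e3 : E (-((k + 1 / 2 + i : ℝ) : ℂ) / 4) = (-I) ^ k * E (-1 / 8) * (-I) ^ i := by
    rw [← E_quarter J, ← E_nat, ← E_nat, ← J.add, ← J.add]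
    congr 1; push_cast; ring
  have e4 : (-(4 * π ^ 2 * (w * x)) : ℂ) ^ i =
      (-2 * π * I * w) ^ i * (2 * π) ^ i * (-I) ^ i * x ^ i := by
    rw [← mul_pow, ← mul_pow, ← mul_pow]
    congr 1
    linear_combination (-4 * π ^ 2 * w * x) * I_sq
  rw [cL, e1, e2, e3, cI, KK]
  generalize (2 * π) ^ (k + 1 / 2 : ℝ) = A
  generalize x ^ (k - 1 / 2 : ℝ) = B
  generalize Real.Gamma (k + 1 / 2 + i) = Γ
  push_cast
  rw [e4]
  ring

theorem lip_bound (L : RowLIP) (s x y : ℝ) (hs : 2 ≤ s) (hx : 0 ≤ x) (hy : 0 < y) :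
    ‖cL s‖ * x ^ (s - 1) * Real.exp (-(2 * π * x * y)) ≤
      2 * π * (2 / y) ^ (s - 1) * Real.exp (-(π * x * y)) := by
  rcases hx.eq_or_lt with rfl | hx
  · have : s - 1 ≠ 0 := by linarith
    have := Real.pi_pos
    rw [Real.zero_rpow ‹_›, mul_zero, zero_mul]
    positivity
  · exact L.bound s x y (by linarith) hx hy

theorem gt_bound (J : RowJH) (L : RowLIP) (a : ℕ) (ha : 1 ≤ a) (s w : ℝ) (hs : 2 ≤ s)
    (hw : 0 ≤ w) (τ : ℂ) (hτ : 0 < τ.im) (i n : ℕ) :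
    ‖cI w i * (cL (s + i) * (((n : ℝ) / (4 * a)) ^ (s + i - 1) : ℝ) * E (n * τ / 4))‖ ≤
      (4 * π * w / (a * τ.im)) ^ i / i.factorial *
        (2 * π * (2 / (a * τ.im)) ^ (s - 1) * Real.exp (-(π * τ.im / 4)) ^ n) := by
  have ha0 : (0 : ℝ) < a := by exact_mod_cast ha
  have hx : (0 : ℝ) ≤ n / (4 * a) := by positivity
  have hi : (0 : ℝ) ≤ i := Nat.cast_nonneg i
  have hπ := Real.pi_pos
  have h := lip_bound L (s + i) (n / (4 * a)) (a * τ.im) (by linarith) hx (by positivity)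
  have e1 : ((n : ℂ) * τ / 4).im = n / (4 * a) * (a * τ.im) := by
    have : (n : ℂ) * τ / 4 = ((n / 4 : ℝ) : ℂ) * τ := by push_cast; ring
    rw [this, im_ofReal_mul]; field_simp
  have e2 : Real.exp (-(π * (n / (4 * a)) * (a * τ.im))) = Real.exp (-(π * τ.im / 4)) ^ n := by
    rw [← Real.exp_nat_mul]; congr 1; field_simp
  have e3 : (2 / (a * τ.im)) ^ (s + i - 1) = (2 / (a * τ.im)) ^ (s - 1) * (2 / (a * τ.im)) ^ i := by
    rw [← Real.rpow_add_natCast (by positivity)]; congr 1; ring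
  rw [norm_mul, norm_mul, norm_mul, norm_cI w hw, J.norm, e1, Complex.norm_real,
    Real.norm_of_nonneg (Real.rpow_nonneg hx _), ← mul_assoc (2 * π)]
  refine (mul_le_mul_of_nonneg_left h (by positivity)).trans (le_of_eq ?_)
  have e4 : (4 * π * w / (a * τ.im)) ^ i = (2 * π * w) ^ i * (2 / (a * τ.im)) ^ i := by
    rw [← mul_pow]; congr 1; ring
  rw [e2, e3, e4]
  ring

/-- the coefficient of the Fourier expansion -/
def GG (k : ℕ) (w : ℝ) (a n : ℕ) (τ : ℂ) : ℂ :=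
  KK k * (((n : ℝ) / (4 * a)) ^ (k - 1 / 2 : ℝ) : ℝ) * E (n * τ / 4) * Jb k (w * (n / (4 * a)))

theorem GG_eq (J : RowJH) (k : ℕ) (hk : 1 ≤ k) (w : ℝ) (a n : ℕ) (τ : ℂ) :
    ∑' i : ℕ, cI w i * (cL (k + 1 / 2 + i) * (((n : ℝ) / (4 * a)) ^ (k + 1 / 2 + i - 1 : ℝ) : ℝ) *
      E (n * τ / 4)) = GG k w a n τ := by
  have hx : (0 : ℝ) ≤ n / (4 * a) := by positivity
  simp only [gt_eq J k _ hk w _ hx]
  rw [tsum_mul_left, GG, Jb, Complex.ofReal_tsum]

theorem rexp_hasSum (x : ℝ) : HasSum (fun i : ℕ => x ^ i / i.factorial) (Real.exp x) := by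
  rw [Real.exp_eq_exp_ℝ]
  exact NormedSpace.expSeries_div_hasSum_exp x

theorem GG_bound (J : RowJH) (L : RowLIP) (k : ℕ) (hk : 2 ≤ k) (w : ℝ) (hw : 0 ≤ w) (a : ℕ)
    (ha : 1 ≤ a) (τ : ℂ) (hτ : 0 < τ.im) (n : ℕ) :
    ‖GG k w a n τ‖ ≤ Real.exp (4 * π * w / (a * τ.im)) *
      (2 * π * (2 / (a * τ.im)) ^ (k + 1 / 2 - 1 : ℝ) * Real.exp (-(π * τ.im / 4)) ^ n) := by
  have hk' : (2 : ℝ) ≤ k := by exact_mod_cast hk
  rw [← GG_eq J k (by omega)]
  exact tsum_of_norm_bounded ((rexp_hasSum _).mul_right _) fun i =>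
    gt_bound J L a ha (k + 1 / 2) w (by linarith) hw τ hτ i n

theorem norm_E_le (J : RowJH) (w : ℝ) (hw : 0 ≤ w) (z : ℂ) (hz : 0 < z.im) :
    ‖E (-w / z)‖ ≤ 1 := by
  rw [J.norm, Real.exp_le_one_iff]
  have e : (-(w : ℂ) / z).im = w * (z.im / normSq z) := by
    rw [div_eq_mul_inv, ← ofReal_neg, im_ofReal_mul, inv_im]; ring
  have := Real.pi_pos
  have h2 := normSq_nonneg z
  rw [e, neg_nonpos]
  positivity

theorem E_hasSum (w : ℝ) (z : ℂ) : HasSum (fun i : ℕ => cI w i * (z ^ i)⁻¹) (E (-w / z)) := by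
  have h := NormedSpace.expSeries_div_hasSum_exp (2 * π * I * (-w / z) : ℂ)
  rw [← Complex.exp_eq_exp_ℂ] at h
  have e : (fun i : ℕ => cI w i * (z ^ i)⁻¹) =
      fun i : ℕ => (2 * π * I * (-w / z) : ℂ) ^ i / (i.factorial : ℂ) := by
    funext i
    rw [cI, ← inv_pow, div_mul_eq_mul_div, ← mul_pow]
    congr 2; ring
  rw [e]; exact h

theorem sum_prod {α β : Type} {f : α → β → ℂ} {u : α → ℝ} {v : β → ℝ} (hu : Summable u)
    (hv : Summable v) (hu0 : ∀ i, 0 ≤ u i) (hv0 : ∀ j, 0 ≤ v j)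
    (h : ∀ i j, ‖f i j‖ ≤ u i * v j) : Summable (Function.uncurry f) :=
  Summable.of_norm_bounded (hu.mul_of_nonneg hv hu0 hv0) fun q => h q.1 q.2

/-- The expansion on one residue class. -/
theorem lipB (J : RowJH) (L : RowLIP) (k : ℕ) (hk : 2 ≤ k) (w : ℝ) (hw : 0 ≤ w) (a : ℕ)
    (ha : 1 ≤ a) (t : ℤ) (τ : ℂ) (hτ : 0 < τ.im) :
    ∑' l : ℤ, E (-(t / (4 * a) * l)) * (a * τ + l) ^ (-((k + 1 / 2 : ℝ) : ℂ)) *
      E (-w / (a * τ + l)) = ∑' n : ℕ, if (4 * a : ℤ) ∣ n - t then GG k w a n τ else 0 := by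
  have hk' : (2 : ℝ) ≤ k := by exact_mod_cast hk
  have ha0 : (0 : ℝ) < a := by exact_mod_cast ha
  have hπ := Real.pi_pos
  have hy : 0 < ((a : ℂ) * τ).im := by simpa using mul_pos ha0 hτ
  have him : ∀ l : ℤ, ((a : ℂ) * τ + l).im = a * τ.im := fun l => by simp
  have hne : ∀ l : ℤ, (a : ℂ) * τ + l ≠ 0 := fun l h => by
    have := him l
    rw [h, zero_im] at this
    exact (mul_pos ha0 hτ).ne this
  let f : ℕ → ℤ → ℂ := fun i l => cI w i *
    (E (-(t / (4 * a) * l)) * (a * τ + l) ^ (-((k + 1 / 2 + i : ℝ) : ℂ)))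
  let g : ℕ → ℕ → ℂ := fun i n => cI w i * (if (4 * a : ℤ) ∣ n - t then
    cL (k + 1 / 2 + i) * (((n : ℝ) / (4 * a)) ^ (k + 1 / 2 + i - 1 : ℝ) : ℝ) * E (n * τ / 4) else 0)
  have hf : Summable (Function.uncurry f) := by
    refine sum_prod (Real.summable_pow_div_factorial (2 * π * w / (a * τ.im)))
      (L.abs (k + 1 / 2) (a * τ) (by linarith) hy).1
      (fun i => by positivity) (fun l => by positivity) fun i l => ?_
    have e1 : ‖E (-(t / (4 * a) * l))‖ = 1 := by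
      have : (-(t / (4 * a) * l) : ℂ) = ((-(t / (4 * a) * l) : ℝ) : ℂ) := by push_cast; rfl
      rw [J.norm, this, ofReal_im]; simp
    have h0 : 0 < ‖(a : ℂ) * τ + l‖ := norm_pos_iff.2 (hne l)
    have h1 : a * τ.im ≤ ‖(a : ℂ) * τ + l‖ := by
      rw [← him l]; exact Complex.im_le_norm _
    have e2 : ‖(a : ℂ) * τ + l‖ ^ (-(k + 1 / 2 + i : ℝ)) =
        ‖(a : ℂ) * τ + l‖ ^ (-(k + 1 / 2 : ℝ)) * (‖(a : ℂ) * τ + l‖ ^ i)⁻¹ := by
      rw [neg_add (k + 1 / 2 : ℝ), Real.rpow_add h0, Real.rpow_neg h0.le (i : ℝ),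
        Real.rpow_natCast]
    simp only [f]
    rw [norm_mul, norm_mul, e1, one_mul, ← ofReal_neg, norm_cpow_real, norm_cI w hw, e2, div_pow]
    have h2 : (‖(a : ℂ) * τ + l‖ ^ i)⁻¹ ≤ ((a * τ.im) ^ i)⁻¹ :=
      inv_anti₀ (by positivity) (pow_le_pow_left₀ (by positivity) h1 i)
    calc _ ≤ (2 * π * w) ^ i / i.factorial *
          (‖(a : ℂ) * τ + l‖ ^ (-(k + 1 / 2 : ℝ)) * ((a * τ.im) ^ i)⁻¹) := by gcongr
      _ = _ := by ring
  have hg : Summable (Function.uncurry g) := by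
    have hr : Real.exp (-(π * τ.im / 4)) < 1 := Real.exp_lt_one_iff.2 (by
      have : 0 < π * τ.im / 4 := by positivity
      linarith)
    refine sum_prod (Real.summable_pow_div_factorial (4 * π * w / (a * τ.im)))
      ((summable_geometric_of_lt_one (Real.exp_nonneg _) hr).mul_left
        (2 * π * (2 / (a * τ.im)) ^ (k + 1 / 2 - 1 : ℝ)))
      (fun i => by positivity) (fun l => by positivity) fun i n => ?_
    simp only [g]
    split_ifs
    · exact gt_bound J L a ha (k + 1 / 2) w (by linarith) hw τ hτ i n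
    · rw [mul_zero, norm_zero]; positivity
  have h1 : ∀ l : ℤ, E (-(t / (4 * a) * l)) * (a * τ + l) ^ (-((k + 1 / 2 : ℝ) : ℂ)) *
      E (-w / (a * τ + l)) = ∑' i, f i l := fun l => by
    rw [← (E_hasSum w _).tsum_eq, ← tsum_mul_left]
    refine tsum_congr fun i => ?_
    simp only [f]
    rw [ofReal_add (k + 1 / 2 : ℝ), neg_add ((k + 1 / 2 : ℝ) : ℂ), cpow_add _ _ (hne l),
      ofReal_natCast, cpow_neg _ (i : ℂ), cpow_natCast]
    ring
  have h2 : ∀ i, ∑' l, f i l = ∑' n, g i n := fun i => by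
    have hi : (0 : ℝ) ≤ i := Nat.cast_nonneg i
    simp only [f, g]
    rw [tsum_mul_left, tsum_mul_left,
      (lipA L a ha t (k + 1 / 2 + i) (by linarith) τ hτ).tsum_eq]
  have h3 : ∀ n : ℕ, ∑' i, g i n = if (4 * a : ℤ) ∣ n - t then GG k w a n τ else 0 := fun n => by
    simp only [g]
    split_ifs
    · exact GG_eq J k (by omega) w a n τ
    · simp
  rw [tsum_congr h1, hf.tsum_comm, tsum_congr h2, ← hg.tsum_comm, tsum_congr h3]

end

end Pool.Agent.MP_5f72fe_nt.H41
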